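import Mathlib

/-!
# QL (helper856): statements of two pieces
-/

set_option autoImplicit false

open scoped Classical

namespace Pool.Agent.N856.QL

open MeasureTheory ProbabilityTheory

/-- the vector with the components `(g₀ + g_d) / 2` -/
noncomputable def Zv {J : Type} (g : Option J → ℝ) (j : J) : ℝ := (g none + g (some j)) / 2

/-- the standard Gaussian measure -/
noncomputable def PG (J : Type) [Fintype J] : Measure (Option J → ℝ) :=
  Measure.pi fun _ => gaussianReal 0 1

/-- the `m!` orderings of the components of `Zv` have the same probability, and the boundary of the set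
of the vectors with a given ordering is a null set -/
def S_ORD : Prop := ∀ (J : Type) [Fintype J] (m : ℕ) (σ : Fin m ≃ J),
  PG J {g | Zv g ∈ frontier {z : J → ℝ | StrictMono fun i => z (σ i)}} = 0 ∧
  (PG J).real {g | StrictMono fun i => Zv g (σ i)} = 1 / (Nat.factorial m : ℝ)

/-- the mean of a function over the reduced residues modulo `M` -/
noncomputable def mn (M : ℕ) (w : ℕ → ℝ) : ℝ :=
  (∑ a ∈ (Finset.range M).filter fun a => a.Coprime M, w a) / (Nat.totient M : ℝ)

/-- the first two moments of `∑ u_d [the symbol (a / d) is - 1]` over the reduced residues `a` -/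
def S_MEAN : Prop := ∀ (M : ℕ), 0 < M → 2 ∣ M → ∀ 𝒟 : Finset ℕ,
  (∀ d ∈ 𝒟, Squarefree d ∧ d % 2 = 1 ∧ 1 < d) → (∏ d ∈ 𝒟, d) ∣ M → ∀ u : ℕ → ℝ,
  mn M (fun a => ∑ d ∈ 𝒟, u d * (if jacobiSym (a : ℤ) d = -1 then 1 else 0)) =
    (∑ d ∈ 𝒟, u d) / 2 ∧
  mn M (fun a => (∑ d ∈ 𝒟, u d * (if jacobiSym (a : ℤ) d = -1 then 1 else 0)) ^ 2) =
    (∑ d ∈ 𝒟, u d) ^ 2 / 4 + (∑ d ∈ 𝒟, u d ^ 2) / 4

end Pool.Agent.N856.QL
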