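import Pool.Agent.N856.JM.Asy

/-!
# QL (helper856): the density machine with an event depending on the numbers of the prime factors in
# the classes modulo `M` (after `Pool/Agent/N916/AM` of helper916 and `N856/JM`)
-/

set_option autoImplicit false

open scoped Classical

namespace Pool.Agent.N856.JM.QL

open Finset Filter
open Pool.Agent.Y703.CX (sm la jj XX eL zz kk S_SIE eL_tendsto logX_eq HH NN ev_eL one_le_exp
  HH_ge HH_le HH_pos kk_ge kk_le X_pos one_add_log lin_le kap zz_ge zz_pos kap_nonneg kap_pow kap_le)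
open Pool.Agent.N916.GB (Po SA ps HB S_EQ S_BIL CntP S_ME8 S_HAL S_FE1)
open Pool.Agent.Y703.CQ (nr sg)
open Pool.Agent.N973.ND (uu)
open Pool.Agent.N218.GB.Asy (Sml sml_of sml_add sml_eps sml_many sml_cut sml_coll log_three
  SA_card cmp)
open Pool.Agent.N916.AM
open Pool.Agent.N916.AM.KEY

/-- the numbers of the elements in the classes modulo `M` -/
noncomputable def cn (M : ℕ) (S : Finset ℕ) : ℕ → ℕ := fun a => (S.filter fun p => p % M = a).card

/-- the same in terms of the key -/
noncomputable def cnk (M : ℕ) (e : Finset ℕ × Finset (ℕ × ℕ)) : ℕ → ℕ := fun a =>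
  (e.1.filter fun p => p % M = a).card + (e.2.filter fun x => x.2 = a).card

theorem cn_ky {M : ℕ} {K : Finset ℕ} {X z H k V : ℕ} {S : Finset ℕ} (hS : S ∈ RR M K X z H k V) :
    cn M S = cnk M (ky M z H S) := by
  obtain ⟨f1, f2, f3⟩ := rr_facts hS
  have hi := inj_ph (M := M) f2
  funext a
  unfold cn cnk ky
  have e1 : ((la z S).image (ph M H)).filter (fun x => x.2 = a) =
      ((la z S).filter fun p => p % M = a).image (ph M H) := by
    rw [filter_image]
    rfl
  simp only
  rw [e1, card_image_of_injOn (hi.mono (coe_subset.2 (filter_subset _ _)))]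
  have hu : sm z S ∪ la z S = S := by
    ext p
    simp only [sm, la, mem_union, mem_filter]
    constructor
    · rintro (h | h) <;> exact h.1
    · intro h
      rcases le_or_gt p z with h' | h'
      · exact Or.inl ⟨h, h'⟩
      · exact Or.inr ⟨h, by omega⟩
  have hd : Disjoint (sm z S) (la z S) := by
    rw [disjoint_left]
    intro p h h'
    simp only [sm, la, mem_filter] at h h'
    omega
  rw [← card_union_of_disjoint (disjoint_filter_filter hd), ← filter_union, hu]

/-- **The sum over the boxes.** -/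
theorem keyA (hBIL : S_BIL) (hEQ : S_EQ) {M : ℕ} (hM : 8 ∣ M) (hM0 : 0 < M) {K : Finset ℕ}
    {G : Finset ℕ → Prop} {c : ℝ} (hL : LAH M K G c) : ∀ ε : ℝ, 0 < ε →
  ∃ (V₀ : ℕ) (C : ℝ), 1 ≤ V₀ ∧ 1 ≤ C ∧
  ∀ (X z H k N : ℕ) (κ : ℝ), 1 ≤ X → 1 ≤ H → 1 ≤ z → M ≤ z → 0 ≤ κ → C ≤ κ ^ 12 * z →
  (H : ℝ) * Real.log X < N → ∀ A : (ℕ → ℕ) → Prop,
  |(((RR M K X z H k V₀).filter fun S => A (cn M S) ∧ (Nd M (sm z S) (la z S) ∧ G S)).card : ℝ) -
      c * (((RR M K X z H k V₀).filter fun S => A (cn M S) ∧ Nd M (sm z S) (la z S)).card : ℝ)| ≤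
    ε * ((RR M K X z H k V₀).card : ℝ) +
    (M * N + M : ℝ) ^ k * (3 ^ (9 * k ^ 2 + 9) * κ) * (X * (1 + Real.log X)) := by
  intro ε hε
  obtain ⟨C, hC1, hB⟩ := hBIL
  obtain ⟨V', hV'⟩ := hL ε hε
  obtain ⟨V, hV1, hVV⟩ : ∃ V : ℕ, 1 ≤ V ∧ V' ≤ V := ⟨V' + 1, by omega, by omega⟩
  have hV : BoxS M K G c ε V := by
    apply box hEQ hM
    intro ι _ _ S₀ p h1 h2 h3 h4 h5 h6
    refine hV' ι S₀ p h1 h2 h3 h4 h5 fun a ha hac => le_trans ?_ (h6 a ha hac)
    exact Nat.mul_le_mul_right _ hVV
  refine ⟨V, C, hV1, hC1, ?_⟩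
  intro X z H k N κ hX hH hz hMz hκ hκz hN A
  set T := (RR M K X z H k V).image (ky M z H) with hT
  set B : ℝ := 3 ^ (9 * k ^ 2 + 9) * κ with hBd
  have hB0 : 0 ≤ B := by positivity
  have hfib : ∀ (P : Finset ℕ → Prop) [DecidablePred P],
      (((RR M K X z H k V).filter fun S => P S).card : ℝ) =
      ∑ e ∈ T, (((RR M K X z H k V).filter fun S => ky M z H S = e ∧ P S).card : ℝ) := by
    intro P _
    rw [Finset.card_eq_sum_card_fiberwise (f := ky M z H) (t := T) (by
      intro S hS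
      rw [Finset.mem_coe, Finset.mem_filter] at hS
      exact Finset.mem_coe.2 (Finset.mem_image_of_mem _ hS.1))]
    push_cast
    refine Finset.sum_congr rfl fun e _ => ?_
    congr 2
    ext S
    simp only [Finset.mem_filter]
    tauto
  have hKP : ∀ e ∈ T, KP M K X z H k V e.1 e.2 := by
    intro e he
    rw [hT, Finset.mem_image] at he
    obtain ⟨S, hS, rfl⟩ := he
    obtain ⟨f1, f2, f3⟩ := rr_facts hS
    exact (rr_iff hH f1 (inj_ph f2)).1 hS
  have hf1 := hfib fun S => A (cn M S) ∧ (Nd M (sm z S) (la z S) ∧ G S)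
  have hf2 := hfib fun S => A (cn M S) ∧ Nd M (sm z S) (la z S)
  have hf3 := hfib fun _ => True
  simp only [and_true, Finset.filter_true] at hf3
  rw [hf1, hf2, hf3, Finset.mul_sum, ← Finset.sum_sub_distrib]
  refine (Finset.abs_sum_le_sum_abs _ _).trans ?_
  have h3 : ∀ e ∈ T, |(((RR M K X z H k V).filter fun S => ky M z H S = e ∧
        (A (cn M S) ∧ (Nd M (sm z S) (la z S) ∧ G S))).card : ℝ) -
      c * (((RR M K X z H k V).filter fun S => ky M z H S = e ∧
        (A (cn M S) ∧ Nd M (sm z S) (la z S))).card : ℝ)| ≤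
      ε * (((RR M K X z H k V).filter fun S => ky M z H S = e).card : ℝ) +
      B * (X / ((∏ p ∈ e.1, p : ℕ) : ℝ)) := by
    intro e he
    obtain ⟨S₀, J⟩ := e
    have hk' : KP M K X z H k V S₀ J := hKP _ he
    have hHB : HB (fun i : J => CC M z H i) (fun i => XX H i.1.1) κ :=
      hb_box (C₁ := C) hB hH hz hκ hκz
    have hmain : |(((RR M K X z H k V).filter fun S => ky M z H S = (S₀, J) ∧
        (Nd M (sm z S) (la z S) ∧ G S)).card : ℝ) -
      c * (((RR M K X z H k V).filter fun S => ky M z H S = (S₀, J) ∧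
        Nd M (sm z S) (la z S)).card : ℝ)| ≤
      ε * (((RR M K X z H k V).filter fun S => ky M z H S = (S₀, J)).card : ℝ) +
      B * (X / ((∏ p ∈ S₀, p : ℕ) : ℝ)) :=
      Pool.Agent.N856.JM.KEY.per_key hε.le hV hH hM0 hMz hκ hk' hHB
    by_cases hA : A (cnk M (S₀, J))
    · have e0 : ∀ S ∈ RR M K X z H k V, ky M z H S = (S₀, J) → A (cn M S) := by
        intro S hS h
        rw [cn_ky hS, h]
        exact hA
      have e1 : ((RR M K X z H k V).filter fun S => ky M z H S = (S₀, J) ∧
          (A (cn M S) ∧ (Nd M (sm z S) (la z S) ∧ G S))) =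
          ((RR M K X z H k V).filter fun S => ky M z H S = (S₀, J) ∧
          (Nd M (sm z S) (la z S) ∧ G S)) := by
        ext S
        simp only [Finset.mem_filter]
        constructor
        · rintro ⟨h1, h2, h3, h4⟩
          exact ⟨h1, h2, h4⟩
        · rintro ⟨h1, h2, h4⟩
          exact ⟨h1, h2, e0 S h1 h2, h4⟩
      have e2 : ((RR M K X z H k V).filter fun S => ky M z H S = (S₀, J) ∧
          (A (cn M S) ∧ Nd M (sm z S) (la z S))) =
          ((RR M K X z H k V).filter fun S => ky M z H S = (S₀, J) ∧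
          Nd M (sm z S) (la z S)) := by
        ext S
        simp only [Finset.mem_filter]
        constructor
        · rintro ⟨h1, h2, h3, h4⟩
          exact ⟨h1, h2, h4⟩
        · rintro ⟨h1, h2, h4⟩
          exact ⟨h1, h2, e0 S h1 h2, h4⟩
      rw [e1, e2]
      exact hmain
    · have e0 : ∀ S ∈ RR M K X z H k V, ky M z H S = (S₀, J) → ¬ A (cn M S) := by
        intro S hS h
        rw [cn_ky hS, h]
        exact hA
      have e1 : ((RR M K X z H k V).filter fun S => ky M z H S = (S₀, J) ∧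
          (A (cn M S) ∧ (Nd M (sm z S) (la z S) ∧ G S))) = ∅ := by
        rw [Finset.filter_eq_empty_iff]
        rintro S hS ⟨h, h', -⟩
        exact e0 S hS h h'
      have e2 : ((RR M K X z H k V).filter fun S => ky M z H S = (S₀, J) ∧
          (A (cn M S) ∧ Nd M (sm z S) (la z S))) = ∅ := by
        rw [Finset.filter_eq_empty_iff]
        rintro S hS ⟨h, h', -⟩
        exact e0 S hS h h'
      rw [e1, e2]
      rw [Finset.card_empty, Nat.cast_zero, mul_zero, sub_zero, abs_zero]
      exact add_nonneg (mul_nonneg hε.le (Nat.cast_nonneg _))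
        (mul_nonneg hB0 (div_nonneg (Nat.cast_nonneg _) (Nat.cast_nonneg _)))
  refine (Finset.sum_le_sum h3).trans ?_
  rw [Finset.sum_add_distrib, ← Finset.mul_sum]
  refine add_le_add le_rfl ?_
  have hsub : T ⊆ (TP X) ×ˢ ((range N ×ˢ range M).powerset.filter fun J => J.card ≤ k) := by
    intro e he
    have hk' := hKP e he
    rw [hT, Finset.mem_image] at he
    obtain ⟨S, hS, rfl⟩ := he
    obtain ⟨f1, f2, f3⟩ := rr_facts hS
    rw [Finset.mem_product, Finset.mem_filter, Finset.mem_powerset]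
    refine ⟨mem_TP (fun q hq => cl_prime (hk'.cl q hq)) ?_, ?_, ?_⟩
    · refine le_trans ?_ f3
      exact Nat.le_of_dvd (Finset.prod_pos fun p hp => (cl_prime (f1 p hp)).pos)
        (Finset.prod_dvd_prod_of_subset _ _ _ (Finset.filter_subset _ _))
    · intro e he
      unfold ky at he
      rw [Finset.mem_image] at he
      obtain ⟨q, hq, rfl⟩ := he
      have hqS := (Finset.mem_filter.1 hq).1
      have hq0 := (cl_prime (f1 q hqS)).pos
      have hqX : q ≤ X := by
        refine le_trans ?_ f3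
        exact Nat.le_of_dvd (Finset.prod_pos fun p hp => (cl_prime (f1 p hp)).pos)
          (Finset.dvd_prod_of_mem _ hqS)
      unfold ph
      rw [Finset.mem_product, Finset.mem_range, Finset.mem_range]
      refine ⟨?_, Nat.mod_lt _ hM0⟩
      have h3 : ((jj H q : ℕ) : ℝ) < N := by
        refine lt_of_le_of_lt (Nat.floor_le (mul_nonneg (Nat.cast_nonneg _)
          (Real.log_nonneg (by exact_mod_cast hq0)))) ?_
        refine lt_of_le_of_lt ?_ hN
        refine mul_le_mul_of_nonneg_left ?_ (Nat.cast_nonneg _)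
        exact Real.log_le_log (by exact_mod_cast hq0) (by exact_mod_cast hqX)
      exact_mod_cast h3
    · have := hk'.card
      omega
  refine (Finset.sum_le_sum_of_subset_of_nonneg hsub fun _ _ _ => by positivity).trans ?_
  rw [Finset.sum_product]
  simp only [Finset.sum_const, nsmul_eq_mul]
  rw [← Finset.mul_sum]
  have h4 : ((((range N ×ˢ range M).powerset.filter fun J => J.card ≤ k).card : ℕ) : ℝ) ≤
      (M * N + M : ℝ) ^ k := by
    have h5 := card_sub (range N ×ˢ range M) k
    rw [Finset.card_product, Finset.card_range, Finset.card_range] at h5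
    calc ((((range N ×ˢ range M).powerset.filter fun J => J.card ≤ k).card : ℕ) : ℝ) ≤
          (((N * M + 1) ^ k : ℕ) : ℝ) := by exact_mod_cast h5
      _ = (N * M + 1 : ℝ) ^ k := by push_cast; ring
      _ ≤ _ := by
        apply pow_le_pow_left₀ (by positivity)
        have h1 : (1 : ℝ) ≤ M := by exact_mod_cast hM0
        linarith
  have h5 : ∑ S ∈ TP X, B * (X / ((∏ p ∈ S, p : ℕ) : ℝ)) ≤ B * (X * (1 + Real.log X)) := by
    have h6 : ∀ S ∈ TP X, B * ((X : ℝ) / ((∏ p ∈ S, p : ℕ) : ℝ)) =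
        B * X * (1 / ((∏ p ∈ S, p : ℕ) : ℝ)) := by
      intro S _
      ring
    rw [Finset.sum_congr rfl h6, ← Finset.mul_sum]
    have h7 := mul_le_mul_of_nonneg_left (harm_TP X) (mul_nonneg hB0 (Nat.cast_nonneg X))
    refine h7.trans (le_of_eq ?_)
    ring
  have h6 : 0 ≤ ∑ S ∈ TP X, B * ((X : ℝ) / ((∏ p ∈ S, p : ℕ) : ℝ)) :=
    Finset.sum_nonneg fun _ _ => by positivity
  rw [mul_assoc]
  gcongr

/-- **The proportion of the good sets.** -/
theorem t_DQA {M : ℕ} (hM : 8 ∣ M) (hM0 : 0 < M) {K : Finset ℕ} {G : Finset ℕ → Prop} {c : ℝ}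
    (hc0 : 0 ≤ c) (hc1 : c ≤ 1) (hL : LAH M K G c) (ε : ℝ) (hε : 0 < ε) :
    ∃ X₀ : ℕ, ∀ X : ℕ, X₀ ≤ X → ∀ A : (ℕ → ℕ) → Prop,
      |(((SS M K X).filter fun S => A (cn M S) ∧ G S).card : ℝ) -
        c * (((SS M K X).filter fun S => A (cn M S)).card : ℝ)| ≤ ε * X := by
  obtain ⟨V, C, hV1, hC1, hkey⟩ := keyA Pool.Agent.N19.GB.t_BIL Pool.Agent.N19.GB.t_EQ hM hM0 hL
    (ε / 2) (by linarith)
  have hS : S_SIE := Pool.Agent.Y488.CX.t_SIE
  have hMe : S_ME8 := Pool.Agent.N19.GB.t_ME8
  have hH : S_HAL := Pool.Agent.N148.GB.t_HAL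
  have hC : CntP := Pool.Agent.N502.GB.CNT.t_CNT
  have hF1 : S_FE1 := Pool.Agent.N502.GB.FE1.t_FE1
  have s1 := sml_many hC
  have s2 := sml_cut hC
  have s3 := sml_coll hC
  have s4 := sml_sum ((range M).filter fun a => a.Coprime M) (fun a X =>
    (((SA X).filter fun S => ((la (zz X) S).filter fun p => p % M = a).card <
      V * ((sm (zz X) S).card + 1)).card : ℝ)) (fun a ha => by
        rw [mem_filter, mem_range] at ha
        exact sml_eps (Few.few hS hM0 ha.1 ha.2 V))
  have s5 := sml_eps (BAD.t_BAD hS hH hMe (B₀ := oM M) oM_po)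
  have s6 := sml_eps (hF1 hS hMe 3 (by norm_num))
  have s7 := sml_eps (hF1 hS hMe 5 (by norm_num))
  have s8 := sml_main hC1 M
  have stot := sml_add (sml_add (sml_add (sml_add (sml_add (sml_add s1 s2) s3) s4) s5)
    (sml_add s6 s7)) s8
  have hev := stot (ε / 2) (by linarith)
  have hzM : ∀ᶠ X : ℕ in atTop, M ≤ zz X := by
    filter_upwards [ev_eL (M + 1)] with X hX
    have hM' : (0 : ℝ) ≤ M := Nat.cast_nonneg _
    have h1 : (1 : ℝ) ≤ eL X := by linarith
    unfold zz
    apply Nat.le_floor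
    have h3 : eL X ≤ (eL X) ^ 3 := le_self_pow₀ h1 (by norm_num)
    have h4 := Real.add_one_le_exp ((eL X) ^ 3)
    linarith
  have hev2 : ∀ᶠ X : ℕ in atTop, ∀ A : (ℕ → ℕ) → Prop,
      |(((SS M K X).filter fun S => A (cn M S) ∧ G S).card : ℝ) -
      c * (((SS M K X).filter fun S => A (cn M S)).card : ℝ)| ≤ ε * X := by
    filter_upwards [hev, ev_eL 1, hzM] with X hX hl hzX A
    have hl0 : 0 < eL X := by linarith
    have hXp := X_pos hl0
    have hNN : (HH X : ℝ) * Real.log X < NN X := by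
      unfold NN
      push_cast
      exact Nat.lt_floor_add_one _
    have hmain := hkey X (zz X) (HH X) (kk X) (NN X) (kap C X) hXp (HH_pos hl0)
      (zz_pos hl) hzX (kap_nonneg hC1 X) (kap_pow hC1 hl) hNN A
    set T := (RR M K X (zz X) (HH X) (kk X) V).filter
      fun S => Nd M (sm (zz X) S) (la (zz X) S) with hT
    have hTG : (RR M K X (zz X) (HH X) (kk X) V).filter
        (fun S => A (cn M S) ∧ (Nd M (sm (zz X) S) (la (zz X) S) ∧ G S)) =
        (T.filter fun S => A (cn M S)).filter G := by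
      rw [hT, filter_filter, filter_filter]
      exact filter_congr fun S _ => by tauto
    have hTG' : (RR M K X (zz X) (HH X) (kk X) V).filter
        (fun S => A (cn M S) ∧ Nd M (sm (zz X) S) (la (zz X) S)) =
        (T.filter fun S => A (cn M S)) := by
      rw [hT, filter_filter]
      exact filter_congr fun S _ => by tauto
    rw [hTG, hTG'] at hmain
    have hTS : T ⊆ SS M K X := (filter_subset _ _).trans (filter_subset _ _)
    have hRS : ((RR M K X (zz X) (HH X) (kk X) V).card : ℝ) ≤ X := by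
      exact_mod_cast (card_le_card ((filter_subset _ _).trans (SS_sub M K X))).trans (SA_card X)
    have hcmp := cmp G (T.filter fun S => A (cn M S)) ((SS M K X).filter fun S => A (cn M S))
      (filter_subset_filter _ hTS) c hc0 hc1
    rw [filter_filter] at hcmp
    have hdiff : ((((SS M K X).filter fun S => A (cn M S)) \
        (T.filter fun S => A (cn M S))).card : ℝ) ≤ ((SS M K X \ T).card : ℝ) := by
      refine Nat.cast_le.2 (card_le_card fun S hS => ?_)
      rw [Finset.mem_sdiff, mem_filter, mem_filter] at hS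
      rw [Finset.mem_sdiff]
      exact ⟨hS.1.1, fun h => hS.2 ⟨h, hS.1.2⟩⟩
    have hout : ((SS M K X \ T).card : ℝ) ≤
        ((((((SA X).filter fun S => kk X < S.card).card : ℝ) +
        (((SA X).filter fun S => S.card ≤ kk X ∧
          X < (∏ p ∈ sm (zz X) S, p) * ∏ p ∈ la (zz X) S, XX (HH X) (jj (HH X) p)).card : ℝ)) +
        (((SA X).filter fun S => ¬ Set.InjOn (jj (HH X)) (la (zz X) S : Set ℕ)).card : ℝ)) +
        (∑ a ∈ (range M).filter (fun a => a.Coprime M),
          (((SA X).filter fun S => ((la (zz X) S).filter fun p => p % M = a).card <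
          V * ((sm (zz X) S).card + 1)).card : ℝ)) +
        (((SA X).filter fun S => S.card ≤ kk X ∧
          ¬ N8 (oM M) (sm (zz X) S) (la (zz X) S)).card : ℝ)) +
        ((((SA X).filter fun S => ∀ p ∈ la (zz X) S, p % 8 ≠ 3 % 8).card : ℝ) +
        (((SA X).filter fun S => ∀ p ∈ la (zz X) S, p % 8 ≠ 5 % 8).card : ℝ)) := by
      have g := card_le_card (out_sub hM hM0 K X (zz X) (HH X) (kk X) V)
      rw [← hT] at g
      have gb : (((range M).filter fun a => a.Coprime M).biUnion fun a =>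
          ((SA X).filter fun S => ((la (zz X) S).filter fun p => p % M = a).card <
          V * ((sm (zz X) S).card + 1))).card ≤ ∑ a ∈ (range M).filter (fun a => a.Coprime M),
          ((SA X).filter fun S => ((la (zz X) S).filter fun p => p % M = a).card <
          V * ((sm (zz X) S).card + 1)).card := Finset.card_biUnion_le
      have g2 := (g.trans (card_union_le _ _)).trans (Nat.add_le_add ((card_union_le _ _).trans
        (Nat.add_le_add_right ((card_union_le _ _).trans
        (Nat.add_le_add ((card_union_le _ _).trans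
        (Nat.add_le_add_right (card_union_le _ _) _)) gb)) _)) (card_union_le _ _))
      exact_mod_cast g2
    have g1 : ε / 2 * ((RR M K X (zz X) (HH X) (kk X) V).card : ℝ) ≤ ε / 2 * X :=
      mul_le_mul_of_nonneg_left hRS (by positivity)
    linarith
  obtain ⟨X₀, h0⟩ := eventually_atTop.1 hev2
  exact ⟨X₀, fun X hX => h0 X hX⟩

/-- the count in a union of classes -/
theorem dqA {M : ℕ} (hM : 8 ∣ M) (hM0 : 0 < M) {K : Finset ℕ} {G : Finset ℕ → Prop} {c : ℝ}
    (hc0 : 0 ≤ c) (hc1 : c ≤ 1) (hL : LAH M K G c) (hK : ∀ a ∈ K, a % 2 = 1) :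
    ∀ ε : ℝ, 0 < ε → ∃ X₀ : ℕ, ∀ X : ℕ, X₀ ≤ X → ∀ A : (ℕ → ℕ) → Prop,
      |(((Icc 1 X).filter fun n => Squarefree n ∧ n % M ∈ K ∧
          (A (cn M n.primeFactors) ∧ G n.primeFactors)).card : ℝ) -
        c * (((Icc 1 X).filter fun n => Squarefree n ∧ n % M ∈ K ∧
          A (cn M n.primeFactors)).card : ℝ)| ≤ ε * X := by
  have hM2 : 2 ∣ M := Dvd.dvd.trans (by norm_num) hM
  intro ε hε
  obtain ⟨X₀, hX₀⟩ := t_DQA hM hM0 hc0 hc1 hL ε hε
  refine ⟨X₀, fun X hX A => ?_⟩
  have h1 := hX₀ X hX A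
  have e1 := card_eq hM2 hK X fun S => A (cn M S) ∧ G S
  have e2 := card_eq hM2 hK X fun S => A (cn M S)
  have e3 : (((Icc 1 X).filter fun n => Squarefree n ∧ n % M ∈ K ∧
      (A (cn M n.primeFactors) ∧ G n.primeFactors)).card) =
      ((SS M K X).filter fun S => A (cn M S) ∧ G S).card := by
    refine Eq.trans ?_ (e1.trans ?_) <;> congr 1 <;> (ext D; simp only [mem_filter])
  have e4 : (((Icc 1 X).filter fun n => Squarefree n ∧ n % M ∈ K ∧
      A (cn M n.primeFactors)).card) = ((SS M K X).filter fun S => A (cn M S)).card := by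
    refine Eq.trans ?_ (e2.trans ?_) <;> congr 1
  rw [e3, e4]
  convert h1 using 5

end Pool.Agent.N856.JM.QL
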