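import Pool.Agent.N856.QL.Glg

/-!
# QL (helper856): the characteristic function with the normalization at `log log X`
-/

set_option autoImplicit false

open scoped Classical

namespace Pool.Agent.N856.QL

open Finset Complex Filter Topology ProbabilityTheory

open Pool.Agent.W262.RK (PS)
open Pool.Agent.N160.SN (gauss_cont ll_cmp)
open Pool.Agent.R421.EK (exp_I_lip)

/-- the characteristic function with the normalization at `√X` -/
lemma cf_sqrt {M : ℕ} (hM : 0 < M) (hM₂ : 2 ∣ M) {K : Finset ℕ} (hK : ∀ a ∈ K, a % 2 = 1)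
    {n₀ : ℕ} (hn₀ : Squarefree n₀) (hnK : n₀ % M ∈ K) {w : ℕ → ℝ} (hw : ∀ p, w (p % M) = w p)
    {μ V : ℝ} (hμ : mean M w = μ) (hV : mean M (fun a => w a ^ 2) = V) (hV0 : 0 ≤ V) :
    Tendsto (fun X : ℕ => (∑ n ∈ SQ M K X, cexp ((((∑ p ∈ n.primeFactors, w p -
      μ * Real.log (Real.log (Nat.sqrt X))) / √(Real.log (Real.log (Nat.sqrt X))) : ℝ) : ℂ) * I)) /
        ((SQ M K X).card : ℂ)) atTop (𝓝 ((Real.exp (-(V / 2)) : ℝ) : ℂ)) := by
  refine sq_cf M hM hM₂ K hK hn₀ hnK w (2 * (∑ a ∈ range M, |w a|) + 1) ?_ ?_ μ V hV0 ?_ ?_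
  · have : 0 ≤ ∑ a ∈ range M, |w a| := sum_nonneg fun _ _ => abs_nonneg _
    linarith
  · intro p
    have h1 := w_bound hM hw p
    linarith
  · intro z hz hMz
    obtain ⟨C, hC0, hC⟩ := mer M hM w hw z hz hMz
    refine ⟨C, hC0, fun y hy => ?_⟩
    have h1 := hC y hy
    have e : (∑ a ∈ (range M).filter fun a => a.Coprime M, w a) /
        (Nat.totient M : ℝ) = μ := by
      rw [← hμ]
      rfl
    rw [e] at h1
    exact h1
  · intro z hz hMz
    obtain ⟨C, hC0, hC⟩ := mer M hM (fun p => (w p) ^ 2)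
      (fun p => by simp only [hw]) z hz hMz
    obtain ⟨C', hC'0, hC'⟩ := mer M hM (fun _ => 1) (fun _ => rfl) z hz hMz
    refine ⟨C + V * C', by positivity, fun y hy => ?_⟩
    have h1 := hC y hy
    have h2 := hC' y hy
    have e : (∑ a ∈ (range M).filter fun a => a.Coprime M, (w a) ^ 2) /
        (Nat.totient M : ℝ) = V := by
      rw [← hV]
      rfl
    have e' : (∑ a ∈ (range M).filter fun a => a.Coprime M, (1 : ℝ)) /
        (Nat.totient M : ℝ) = 1 := by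
      rw [sum_const, nsmul_eq_mul, mul_one]
      have e3 : ((range M).filter fun a => a.Coprime M).card = Nat.totient M := by
        rw [Nat.totient_eq_card_coprime]
        congr 1
        ext a
        simp only [mem_filter, Nat.coprime_comm]
      rw [e3, div_self]
      exact_mod_cast (Nat.totient_pos.2 hM).ne'
    simp only [e] at h1
    simp only [e', one_mul] at h2
    have e2 : ∑ p ∈ PS z y, (w p) ^ 2 * (1 / (p : ℝ)) - V * ∑ p ∈ PS z y, 1 / (p : ℝ) =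
        (∑ p ∈ PS z y, (w p) ^ 2 * (1 / (p : ℝ)) - V * Real.log (Real.log y)) -
        V * (∑ p ∈ PS z y, 1 / (p : ℝ) - Real.log (Real.log y)) := by ring
    rw [e2]
    refine (abs_sub _ _).trans (add_le_add h1 ?_)
    rw [abs_mul, abs_of_nonneg hV0]
    exact mul_le_mul_of_nonneg_left h2 hV0

/-- few large values -/
lemma tight {M : ℕ} (hM : 0 < M) (hM₂ : 2 ∣ M) {K : Finset ℕ} (hK : ∀ a ∈ K, a % 2 = 1)
    {n₀ : ℕ} (hn₀ : Squarefree n₀) (hnK : n₀ % M ∈ K) {w : ℕ → ℝ} (hw : ∀ p, w (p % M) = w p)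
    {μ V : ℝ} (hμ : mean M w = μ) (hV : mean M (fun a => w a ^ 2) = V) (hV0 : 0 < V)
    (ε : ℝ) (hε : 0 < ε) : ∃ B : ℝ, 0 < B ∧ ∀ᶠ X : ℕ in atTop,
      (((SQ M K X).filter fun n => ¬ |(∑ p ∈ n.primeFactors, w p -
        μ * Real.log (Real.log (Nat.sqrt X))) / √(Real.log (Real.log (Nat.sqrt X)))| ≤ B).card : ℝ) ≤
      ε * ((SQ M K X).card : ℝ) := by
  have hsV : 0 < √V := Real.sqrt_pos.2 hV0
  have hlaw := law_sqrt hM hM₂ hK hn₀ hnK hw hμ hV hV0
  have ht : Tendsto (fun x : ℝ => (gaussianReal 0 1).real (Set.Iic x)) atTop (𝓝 1) := by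
    have := ProbabilityTheory.tendsto_cdf_atTop (gaussianReal 0 1)
    refine this.congr fun x => ?_
    rw [cdf_eq_real]
  have hb : Tendsto (fun x : ℝ => (gaussianReal 0 1).real (Set.Iic (-x))) atTop (𝓝 0) := by
    have := (ProbabilityTheory.tendsto_cdf_atBot (gaussianReal 0 1)).comp tendsto_neg_atTop_atBot
    refine this.congr fun x => ?_
    rw [Function.comp_apply, cdf_eq_real]
  have h1 := ht.eventually (lt_mem_nhds (show 1 - ε / 4 < 1 by linarith))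
  have h2 := hb.eventually (gt_mem_nhds (show 0 < ε / 4 by linarith))
  obtain ⟨x, ⟨h3, h4⟩, h5⟩ := ((h1.and h2).and (eventually_gt_atTop (0 : ℝ))).exists
  refine ⟨x * √V, by positivity, ?_⟩
  have h6 := (hlaw x).eventually (lt_mem_nhds h3)
  have h7 := (hlaw (-x)).eventually (gt_mem_nhds h4)
  obtain ⟨c₁, X1, hc₁, hlow⟩ := SQ_low hM hM₂ hn₀ hnK
  filter_upwards [h6, h7, eventually_ge_atTop (X1 + 1)] with X g1 g2 hX
  have hXp : (0 : ℝ) < X := by
    have : 0 < X := by omega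
    exact_mod_cast this
  have hcard : (0 : ℝ) < (SQ M K X).card := lt_of_lt_of_le (by positivity) (hlow X (by omega))
  rw [lt_div_iff₀ hcard] at g1
  rw [div_lt_iff₀ hcard] at g2
  set T : ℕ → ℝ := fun n => (∑ p ∈ n.primeFactors, w p -
        μ * Real.log (Real.log (Nat.sqrt X))) / √(Real.log (Real.log (Nat.sqrt X))) with hT
  have eT : ∀ n, (∑ p ∈ n.primeFactors, w p - μ * Real.log (Real.log (Nat.sqrt X))) /
      (√V * √(Real.log (Real.log (Nat.sqrt X)))) = T n / √V := by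
    intro n
    rw [hT]
    simp only
    rw [div_div, mul_comm (√V)]
  simp only [eT] at g1 g2
  have hsub : ((SQ M K X).filter fun n => ¬ |T n| ≤ x * √V) ⊆
      ((SQ M K X).filter fun n => T n / √V ≤ -x) ∪
      ((SQ M K X) \ ((SQ M K X).filter fun n => T n / √V ≤ x)) := by
    intro n hn
    rw [mem_filter] at hn
    rw [mem_union, mem_filter, Finset.mem_sdiff, mem_filter]
    by_cases h : T n / √V ≤ x
    · left
      refine ⟨hn.1, ?_⟩
      rw [div_le_iff₀ hsV] at h ⊢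
      by_contra hcon
      exact hn.2 (abs_le.2 ⟨by linarith, h⟩)
    · exact Or.inr ⟨hn.1, fun h' => h h'.2⟩
  have h8 := (card_le_card hsub).trans (card_union_le _ _)
  rw [card_sdiff_of_subset (filter_subset _ _)] at h8
  have h9 : ((SQ M K X).filter fun n => T n / √V ≤ x).card ≤ (SQ M K X).card :=
    card_le_card (filter_subset _ _)
  have h10 : (((SQ M K X).filter fun n => ¬ |T n| ≤ x * √V).card : ℝ) ≤
      (((SQ M K X).filter fun n => T n / √V ≤ -x).card : ℝ) + (((SQ M K X).card : ℝ) -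
      (((SQ M K X).filter fun n => T n / √V ≤ x).card : ℝ)) := by
    rw [← Nat.cast_sub h9]
    exact_mod_cast h8
  refine h10.trans ?_
  have h11 : (0 : ℝ) ≤ (SQ M K X).card := hcard.le
  nlinarith

/-- **The characteristic function with the normalization at `X` and a shift.** -/
theorem cfl {M : ℕ} (hM : 0 < M) (hM₂ : 2 ∣ M) {K : Finset ℕ} (hK : ∀ a ∈ K, a % 2 = 1)
    {n₀ : ℕ} (hn₀ : Squarefree n₀) (hnK : n₀ % M ∈ K) {w : ℕ → ℝ} (hw : ∀ p, w (p % M) = w p)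
    {μ V : ℝ} (hμ : mean M w = μ) (hV : mean M (fun a => w a ^ 2) = V) (hV0 : 0 < V) (b : ℝ) :
    Tendsto (fun X : ℕ => (∑ n ∈ SQ M K X, cexp ((((∑ p ∈ n.primeFactors, w p + b -
      μ * Real.log (Real.log X)) / √(Real.log (Real.log X)) : ℝ) : ℂ) * I)) /
        ((SQ M K X).card : ℂ)) atTop (𝓝 ((Real.exp (-(V / 2)) : ℝ) : ℂ)) := by
  have h0 := cf_sqrt hM hM₂ hK hn₀ hnK hw hμ hV hV0.le
  rw [Metric.tendsto_atTop] at h0 ⊢
  intro ε hε
  obtain ⟨X0, hX0⟩ := h0 (ε / 2) (by positivity)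
  obtain ⟨B, hB, htight⟩ := tight hM hM₂ hK hn₀ hnK hw hμ hV hV0 (ε / 16) (by positivity)
  obtain ⟨Xt, hXt⟩ := eventually_atTop.1 htight
  obtain ⟨c₁, X1, hc₁, hlow⟩ := SQ_low hM hM₂ hn₀ hnK
  obtain ⟨E, hE⟩ : ∃ E : ℝ, E = (2 * B + 2 * |μ| + |b|) * (8 / ε) := ⟨_, rfl⟩
  have hE0 : 0 ≤ E := by
    rw [hE]
    positivity
  obtain ⟨X2, hX2⟩ := Pool.Agent.R421.NR.big_ll ((E + 1) ^ 2)
  refine ⟨X0 + Xt + X1 + (X2 + 9) ^ 2, fun X hX => ?_⟩
  have hs : X2 + 9 ≤ Nat.sqrt X := by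
    rw [Nat.le_sqrt']
    omega
  have hX9 : 9 ≤ X := by
    have := Nat.sqrt_le_self X
    omega
  have hXp : (0 : ℝ) < X := by
    have : 0 < X := by omega
    exact_mod_cast this
  have hcard : (0 : ℝ) < (SQ M K X).card := lt_of_lt_of_le (by positivity) (hlow X (by omega))
  have g0 := hX0 X (by omega)
  have g1 := hXt X (by omega)
  have g2 := hX2 (Nat.sqrt X) (by omega)
  obtain ⟨g3, g4⟩ := ll_cmp X hX9
  obtain ⟨ℓ, hℓ⟩ : ∃ ℓ, ℓ = Real.log (Real.log (Nat.sqrt X)) := ⟨_, rfl⟩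
  obtain ⟨L, hL⟩ : ∃ L, L = Real.log (Real.log (X : ℝ)) := ⟨_, rfl⟩
  rw [← hℓ] at g0 g1 g2 g3 g4
  rw [← hL] at g3 g4 ⊢
  have hsl : E + 1 ≤ √ℓ := Real.le_sqrt_of_sq_le g2
  have hsl1 : 1 ≤ √ℓ := by linarith
  have hsl0 : 0 < √ℓ := by linarith
  have hℓ0 : 0 < ℓ := Real.sqrt_pos.1 hsl0
  have hsq : √ℓ ^ 2 = ℓ := Real.sq_sqrt hℓ0.le
  have hsq' : √L ^ 2 = L := Real.sq_sqrt (by linarith)
  have hle : √ℓ ≤ √L := Real.sqrt_le_sqrt g3
  have hsL0 : 0 < √L := by linarith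
  have hdiff : √L - √ℓ ≤ 2 := by
    have h4 : (√L - √ℓ) * (√L + √ℓ) ≤ 2 := by nlinarith
    nlinarith
  set T : ℕ → ℝ := fun n => (∑ p ∈ n.primeFactors, w p - μ * ℓ) / √ℓ with hT
  set T' : ℕ → ℝ := fun n => (∑ p ∈ n.primeFactors, w p + b - μ * L) / √L with hT'
  -- the pointwise comparison
  have hpt : ∀ n, |T n| ≤ B → |T' n - T n| ≤ ε / 8 := by
    intro n hn
    have e1 : T' n - T n = (T n * (√ℓ - √L) + (b + μ * (ℓ - L))) / √L := by
      rw [hT, hT']
      simp only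
      field_simp
      ring
    rw [e1, abs_div, abs_of_pos hsL0, div_le_iff₀ hsL0]
    have h5 : |T n * (√ℓ - √L)| ≤ B * 2 := by
      rw [abs_mul, abs_of_nonpos (a := √ℓ - √L) (by linarith)]
      exact mul_le_mul hn (by linarith) (by linarith) hB.le
    have h6 : |b + μ * (ℓ - L)| ≤ |b| + |μ| * 2 := by
      refine (abs_add_le _ _).trans (add_le_add le_rfl ?_)
      rw [abs_mul, abs_of_nonpos (a := ℓ - L) (by linarith)]
      exact mul_le_mul_of_nonneg_left (by linarith) (abs_nonneg _)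
    have h7 : ε / 8 * E = 2 * B + 2 * |μ| + |b| := by
      rw [hE]
      field_simp
    calc |T n * (√ℓ - √L) + (b + μ * (ℓ - L))| ≤ B * 2 + (|b| + |μ| * 2) :=
          (abs_add_le _ _).trans (add_le_add h5 h6)
      _ = ε / 8 * E := by rw [h7]; ring
      _ ≤ ε / 8 * √L := mul_le_mul_of_nonneg_left (by linarith) (by positivity)
  have hsum : ‖∑ n ∈ SQ M K X, cexp ((T' n : ℂ) * I) - ∑ n ∈ SQ M K X, cexp ((T n : ℂ) * I)‖ ≤
      ε / 4 * (SQ M K X).card := by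
    rw [← sum_sub_distrib]
    refine (norm_sum_le _ _).trans ?_
    rw [← sum_filter_add_sum_filter_not (SQ M K X) (fun n => |T n| ≤ B)]
    have h5 : ∑ n ∈ (SQ M K X).filter (fun n => |T n| ≤ B),
        ‖cexp ((T' n : ℂ) * I) - cexp ((T n : ℂ) * I)‖ ≤ (SQ M K X).card * (ε / 8) := by
      calc ∑ n ∈ (SQ M K X).filter (fun n => |T n| ≤ B),
          ‖cexp ((T' n : ℂ) * I) - cexp ((T n : ℂ) * I)‖ ≤
          ∑ n ∈ (SQ M K X).filter (fun n => |T n| ≤ B), ε / 8 :=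
            sum_le_sum fun n hn => (exp_I_lip _ _).trans (hpt n (mem_filter.1 hn).2)
        _ = ((SQ M K X).filter (fun n => |T n| ≤ B)).card * (ε / 8) := by
            rw [sum_const, nsmul_eq_mul]
        _ ≤ _ := by
            refine mul_le_mul_of_nonneg_right ?_ (by positivity)
            exact_mod_cast card_le_card (filter_subset _ _)
    have h6 : ∑ n ∈ (SQ M K X).filter (fun n => ¬ |T n| ≤ B),
        ‖cexp ((T' n : ℂ) * I) - cexp ((T n : ℂ) * I)‖ ≤ ε / 16 * (SQ M K X).card * 2 := by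
      calc ∑ n ∈ (SQ M K X).filter (fun n => ¬ |T n| ≤ B),
          ‖cexp ((T' n : ℂ) * I) - cexp ((T n : ℂ) * I)‖ ≤
          ∑ n ∈ (SQ M K X).filter (fun n => ¬ |T n| ≤ B), (2 : ℝ) := by
            refine sum_le_sum fun n _ => (norm_sub_le _ _).trans ?_
            rw [Complex.norm_exp_ofReal_mul_I, Complex.norm_exp_ofReal_mul_I]
            norm_num
        _ = ((SQ M K X).filter (fun n => ¬ |T n| ≤ B)).card * 2 := by
            rw [sum_const, nsmul_eq_mul]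
        _ ≤ _ := mul_le_mul_of_nonneg_right g1 (by norm_num)
    linarith
  have hcardC : ((SQ M K X).card : ℂ) ≠ 0 := by exact_mod_cast hcard.ne'
  rw [dist_eq_norm] at g0 ⊢
  have e1 : (∑ n ∈ SQ M K X, cexp ((T' n : ℂ) * I)) / ((SQ M K X).card : ℂ) -
      ((Real.exp (-(V / 2)) : ℝ) : ℂ) =
      (∑ n ∈ SQ M K X, cexp ((T' n : ℂ) * I) - ∑ n ∈ SQ M K X, cexp ((T n : ℂ) * I)) /
        ((SQ M K X).card : ℂ) + ((∑ n ∈ SQ M K X, cexp ((T n : ℂ) * I)) /
        ((SQ M K X).card : ℂ) - ((Real.exp (-(V / 2)) : ℝ) : ℂ)) := by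
    ring
  rw [e1]
  refine lt_of_le_of_lt (norm_add_le _ _) ?_
  have h7 : ‖(∑ n ∈ SQ M K X, cexp ((T' n : ℂ) * I) - ∑ n ∈ SQ M K X, cexp ((T n : ℂ) * I)) /
        ((SQ M K X).card : ℂ)‖ ≤ ε / 4 := by
    rw [norm_div, Complex.norm_natCast, div_le_iff₀ hcard]
    exact hsum
  have h8 := g0
  linarith

end Pool.Agent.N856.QL
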