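import Pool.Agent.N856.QL.Joint
import Pool.Agent.N856.QL.Amf
import Pool.Agent.N856.JM.Law

/-!
# QL (helper856): the joint law of class groups without element of order four and of additive functions
-/

set_option autoImplicit false

open scoped Classical

namespace Pool.Agent.N856.QL

open Finset Filter Topology MeasureTheory
open Pool.Agent.N969.P15 (Qc)
open Pool.Agent.N916.GB (Po Gd eta Gd_iff_Qc eta_bounds)
open Pool.Agent.N856.JL (Fx ZZ GdJ)
open Pool.Agent.N856.JM (lah)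
open Pool.Agent.N856.JM.QL (cn dqA)

/-- the sum over the prime factors in terms of the numbers of the prime factors in the classes -/
lemma sum_cn {M : ℕ} (hM : 0 < M) {w : ℕ → ℝ} (hw : ∀ p, w (p % M) = w p) (S : Finset ℕ) :
    ∑ p ∈ S, w p = ∑ a ∈ range M, w a * (cn M S a : ℝ) := by
  have hmap : ∀ p ∈ S, p % M ∈ range M := fun p _ => mem_range.2 (Nat.mod_lt _ hM)
  rw [← sum_fiberwise_of_maps_to hmap]
  refine sum_congr rfl fun a _ => ?_
  unfold cn
  have h : ∀ p ∈ S.filter (fun p => p % M = a), w p = w a := by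
    intro p hp
    rw [← hw p, (mem_filter.1 hp).2]
  rw [sum_congr rfl h, sum_const, nsmul_eq_mul, mul_comm]

/-- a comparison of ratios -/
lemma ratio2 {A B D : ℕ → ℕ} {c c₁ l : ℝ} {X₁ : ℕ} (hc₁ : 0 < c₁)
    (hlow : ∀ X : ℕ, X₁ ≤ X → c₁ * X ≤ (D X : ℝ))
    (h : ∀ ε : ℝ, 0 < ε → ∃ X₀ : ℕ, ∀ X : ℕ, X₀ ≤ X → |(A X : ℝ) - c * (B X : ℝ)| ≤ ε * X)
    (hB : Tendsto (fun X => (B X : ℝ) / (D X : ℝ)) atTop (𝓝 l)) :
    Tendsto (fun X => (A X : ℝ) / (D X : ℝ)) atTop (𝓝 (c * l)) := by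
  have h1 : Tendsto (fun X => (A X : ℝ) / (D X : ℝ) - c * ((B X : ℝ) / (D X : ℝ))) atTop (𝓝 0) := by
    rw [Metric.tendsto_atTop]
    intro ε hε
    obtain ⟨X₀, hX₀⟩ := h (ε / 2 * c₁) (by positivity)
    refine ⟨max X₀ (X₁ + 1), fun X hX => ?_⟩
    have h1 := hX₀ X ((le_max_left _ _).trans hX)
    have hX1 : X₁ + 1 ≤ X := (le_max_right _ _).trans hX
    have h2 := hlow X (by omega)
    have hXp : (0 : ℝ) < X := by exact_mod_cast (by omega : 0 < X)
    have hD : (0 : ℝ) < D X := lt_of_lt_of_le (by positivity) h2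
    rw [Real.dist_eq, sub_zero]
    have e : (A X : ℝ) / (D X : ℝ) - c * ((B X : ℝ) / (D X : ℝ)) =
        ((A X : ℝ) - c * (B X : ℝ)) / (D X : ℝ) := by
      ring
    rw [e, abs_div, abs_of_pos hD, div_lt_iff₀ hD]
    calc |(A X : ℝ) - c * (B X : ℝ)| ≤ ε / 2 * c₁ * X := h1
      _ = ε / 2 * (c₁ * X) := by ring
      _ ≤ ε / 2 * D X := mul_le_mul_of_nonneg_left h2 (by positivity)
      _ < ε * D X := by nlinarith
  have h2 := h1.add (hB.const_mul c)
  rw [zero_add] at h2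
  refine h2.congr fun X => ?_
  ring

/-- the events depending on the numbers of the prime factors in the classes -/
theorem mach {I : Type} [Fintype I] {c : I → ℕ} (hinj : Function.Injective c)
    (hc : ∀ i, Squarefree (c i) ∧ c i % 2 = 1) {M : ℕ} (hM0 : 0 < M) (h8 : 8 ∣ M)
    (hcM : ∀ i, c i ∣ M) {K : Finset ℕ} (hK0 : ∀ a ∈ K, a % 2 = 1)
    (hK1 : ∀ a ∈ K, ∀ i, (a * c i) % 4 = 3) (hK2 : ∀ a ∈ K, ∀ i, a.Coprime (c i))
    {n₀ : ℕ} (hn : Squarefree n₀) (hn₀ : n₀ % M ∈ K) (R : ℕ → (ℕ → ℕ) → Prop) {l : ℝ}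
    (hl : Tendsto (fun X : ℕ => (((SQ M K X).filter fun n => R X (cn M n.primeFactors)).card : ℝ) /
      ((SQ M K X).card : ℝ)) atTop (𝓝 l)) :
    Tendsto (fun X : ℕ => (((SQ M K X).filter fun n => (∀ i, Qc (c i * n)) ∧
      R X (cn M n.primeFactors)).card : ℝ) / ((SQ M K X).card : ℝ)) atTop
      (𝓝 (eta ^ Fintype.card I * l)) := by
  have h2 : 2 ∣ M := Dvd.dvd.trans (by norm_num) h8
  have h4 : 4 ∣ M := Dvd.dvd.trans (by norm_num) h8
  set F : I → Finset ℕ := fun i => (c i).primeFactors with hF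
  have hprod : ∀ i, ∏ p ∈ F i, p = c i := fun i => Nat.prod_primeFactors_of_squarefree (hc i).1
  have hFx : Fx F := by
    refine ⟨fun i p hp => ⟨Nat.prime_of_mem_primeFactors hp, ?_⟩, fun i j hij => ?_⟩
    · rintro rfl
      have h1 := Nat.dvd_of_mem_primeFactors hp
      have h2 := (hc i).2
      omega
    · refine hinj ?_
      rw [← hprod i, ← hprod j, hij]
  have hFM : ∀ i, ∀ u ∈ F i, u ∣ M := fun i u hu => (Nat.dvd_of_mem_primeFactors hu).trans (hcM i)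
  have hK1' : ∀ a ∈ K, ∀ i, (a * ∏ u ∈ F i, u) % 4 = 3 := by
    intro a ha i
    rw [hprod i]
    exact hK1 a ha i
  have hK2' : ∀ a ∈ K, ∀ i, ∀ u ∈ F i, ¬ u ∣ a := by
    intro a ha i u hu hua
    have h9 := Nat.dvd_gcd hua (Nat.dvd_of_mem_primeFactors hu)
    rw [hK2 a ha i] at h9
    exact (Nat.prime_of_mem_primeFactors hu).one_lt.ne' (Nat.dvd_one.1 h9)
  have hL := lah hFx h8 hM0 hFM hK1' hK2'
  have hb := eta_bounds
  have h0 : (0 : ℝ) ≤ eta := by linarith [hb.1]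
  have h1 : eta ≤ 1 := by linarith [hb.2]
  have hd := dqA h8 hM0 (pow_nonneg h0 _) (pow_le_one₀ h0 h1) hL hK0
  obtain ⟨c₁, X₁, hc₁, hlow⟩ := SQ_low hM0 h2 hn hn₀
  refine ratio2 hc₁ hlow (fun ε hε => ?_) hl
  obtain ⟨X₀, hX₀⟩ := hd ε hε
  refine ⟨X₀, fun X hX => ?_⟩
  have h5 := hX₀ X hX (R X)
  have e1 : ((Icc 1 X).filter fun n => Squarefree n ∧ n % M ∈ K ∧
      (R X (cn M n.primeFactors) ∧ GdJ F n.primeFactors)) =
      (SQ M K X).filter fun n => (∀ i, Qc (c i * n)) ∧ R X (cn M n.primeFactors) := by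
    unfold SQ
    ext n
    simp only [mem_filter]
    rw [and_assoc]
    refine and_congr_right fun _ => ?_
    rw [and_assoc]
    refine and_congr_right fun h5 => ?_
    refine and_congr_right fun h6 => ?_
    rw [and_comm]
    refine and_congr_left fun _ => ?_
    unfold GdJ
    refine forall_congr' fun i => ?_
    have h7 : n.Coprime (c i) := by
      have h8 := hK2 _ h6 i
      rw [Nat.Coprime] at h8 ⊢
      obtain ⟨k, hk⟩ := hcM i
      rw [← h8, hk, Nat.gcd_comm n, Nat.gcd_comm (n % (c i * k)), Nat.gcd_rec (c i) n,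
        Nat.gcd_rec (c i) (n % (c i * k)), Nat.mod_mod_of_dvd n (Dvd.intro _ rfl)]
    have h9 : (n * c i) % 4 = 3 := by
      rw [Nat.mul_mod, ← Nat.mod_mod_of_dvd n h4, ← Nat.mul_mod]
      exact hK1 _ h6 i
    have e : n.primeFactors ∪ F i = (c i * n).primeFactors := by
      rw [Nat.primeFactors_mul (hc i).1.ne_zero h5.ne_zero, union_comm]
    rw [e, Gd_iff_Qc ((Nat.squarefree_mul h7.symm).2 ⟨(hc i).1, h5⟩) (by rwa [mul_comm])]
  have e2 : ((Icc 1 X).filter fun n => Squarefree n ∧ n % M ∈ K ∧ R X (cn M n.primeFactors)) =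
      (SQ M K X).filter fun n => R X (cn M n.primeFactors) := by
    unfold SQ
    ext n
    simp only [mem_filter]
    tauto
  rw [e1, e2] at h5
  exact h5

/-- **The joint law.** -/
theorem lawG {I : Type} [Fintype I] {c : I → ℕ} (hinj : Function.Injective c)
    (hc : ∀ i, Squarefree (c i) ∧ c i % 2 = 1) {M : ℕ} (hM0 : 0 < M) (h8 : 8 ∣ M)
    (hcM : ∀ i, c i ∣ M) {K : Finset ℕ} (hK0 : ∀ a ∈ K, a % 2 = 1)
    (hK1 : ∀ a ∈ K, ∀ i, (a * c i) % 4 = 3) (hK2 : ∀ a ∈ K, ∀ i, a.Coprime (c i))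
    {n₀ : ℕ} (hn : Squarefree n₀) (hn₀ : n₀ % M ∈ K) {J : Type} [Fintype J] {w : J → ℕ → ℝ}
    (hw : ∀ j p, w j (p % M) = w j p) {μ : J → ℝ} (hμ : ∀ j, mean M (w j) = μ j)
    (hV : ∀ θ : J → ℝ, mean M (fun a => (∑ j, θ j * w j a) ^ 2) =
      (∑ j, θ j) ^ 2 / 4 + (∑ j, θ j ^ 2) / 4) (b : J → ℝ)
    (A : Set (J → ℝ)) (hAm : MeasurableSet A) (hA : PG J {g | Zv g ∈ frontier A} = 0) :
    Tendsto (fun X : ℕ => (((SQ M K X).filter fun n => (∀ i, Qc (c i * n)) ∧
      (fun j => (∑ p ∈ n.primeFactors, w j p + b j - μ j * Real.log (Real.log X)) /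
        √(Real.log (Real.log X))) ∈ A).card : ℝ) / ((SQ M K X).card : ℝ)) atTop
      (𝓝 (eta ^ Fintype.card I * (PG J).real {g | Zv g ∈ A})) := by
  have h2 : 2 ∣ M := Dvd.dvd.trans (by norm_num) h8
  have hj := joint hM0 h2 hK0 hn hn₀ hw hμ hV b A hAm hA
  have e0 : ∀ X n : ℕ, (fun j => (∑ p ∈ n.primeFactors, w j p + b j -
      μ j * Real.log (Real.log X)) / √(Real.log (Real.log X))) =
      (fun j => (∑ a ∈ range M, w j a * (cn M n.primeFactors a : ℝ) + b j -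
      μ j * Real.log (Real.log X)) / √(Real.log (Real.log X))) := by
    intro X n
    funext j
    rw [← sum_cn hM0 (hw j)]
  simp only [e0] at hj ⊢
  exact mach hinj hc hM0 h8 hcM hK0 hK1 hK2 hn hn₀ (fun X f =>
    (fun j => (∑ a ∈ range M, w j a * (f a : ℝ) + b j - μ j * Real.log (Real.log X)) /
      √(Real.log (Real.log X))) ∈ A) hj

/-- the Gaussian law with a constant shift -/
theorem glg_shift {M : ℕ} (hM : 0 < M) (hM₂ : 2 ∣ M) {K : Finset ℕ} (hK : ∀ a ∈ K, a % 2 = 1)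
    {n₀ : ℕ} (hn₀ : Squarefree n₀) (hnK : n₀ % M ∈ K) {w : ℕ → ℝ} (hw : ∀ p, w (p % M) = w p)
    {μ V : ℝ} (hμ : mean M w = μ) (hV : mean M (fun a => w a ^ 2) = V) (hV0 : 0 < V) (b t : ℝ) :
    Tendsto (fun X : ℕ =>
      (((SQ M K X).filter fun n => ∑ p ∈ n.primeFactors, w p + b ≤ μ * Real.log (Real.log X) +
        t * √(V * Real.log (Real.log X))).card : ℝ) / ((SQ M K X).card : ℝ)) atTop
      (𝓝 ((ProbabilityTheory.gaussianReal 0 1).real (Set.Iic t))) := by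
  have hlaw := glg hM hM₂ hK hn₀ hnK hw hμ hV hV0
  have hthr : ∀ δ : ℝ, 0 < δ → ∀ᶠ X : ℕ in atTop, |b| ≤ δ * √(V * Real.log (Real.log X)) := by
    intro δ hδ
    have h1 : Tendsto (fun X : ℕ => V * Real.log (Real.log (X : ℝ))) atTop atTop :=
      (Real.tendsto_log_atTop.comp (Real.tendsto_log_atTop.comp
        tendsto_natCast_atTop_atTop)).const_mul_atTop hV0
    have h2 := h1.eventually_ge_atTop ((|b| / δ) ^ 2)
    filter_upwards [h2] with X hX
    have h3 : |b| / δ ≤ √(V * Real.log (Real.log X)) := Real.le_sqrt_of_sq_le hX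
    rw [div_le_iff₀ hδ] at h3
    linarith
  have hup : ∀ δ : ℝ, 0 < δ → ∀ᶠ X : ℕ in atTop,
      (((SQ M K X).filter fun n => ∑ p ∈ n.primeFactors, w p + b ≤ μ * Real.log (Real.log X) +
        t * √(V * Real.log (Real.log X))).card : ℝ) / ((SQ M K X).card : ℝ) ≤
      (((SQ M K X).filter fun n => ∑ p ∈ n.primeFactors, w p ≤ μ * Real.log (Real.log X) +
        (t + δ) * √(V * Real.log (Real.log X))).card : ℝ) / ((SQ M K X).card : ℝ) := by
    intro δ hδ
    filter_upwards [hthr δ hδ] with X h1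
    refine div_le_div_of_nonneg_right ?_ (Nat.cast_nonneg _)
    refine Nat.cast_le.2 (card_le_card fun n hn => ?_)
    rw [mem_filter] at hn ⊢
    refine ⟨hn.1, ?_⟩
    have h2 := hn.2
    have h3 := (abs_le.1 h1).1
    linarith
  have hlo : ∀ δ : ℝ, 0 < δ → ∀ᶠ X : ℕ in atTop,
      (((SQ M K X).filter fun n => ∑ p ∈ n.primeFactors, w p ≤ μ * Real.log (Real.log X) +
        (t - δ) * √(V * Real.log (Real.log X))).card : ℝ) / ((SQ M K X).card : ℝ) ≤
      (((SQ M K X).filter fun n => ∑ p ∈ n.primeFactors, w p + b ≤ μ * Real.log (Real.log X) +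
        t * √(V * Real.log (Real.log X))).card : ℝ) / ((SQ M K X).card : ℝ) := by
    intro δ hδ
    filter_upwards [hthr δ hδ] with X h1
    refine div_le_div_of_nonneg_right ?_ (Nat.cast_nonneg _)
    refine Nat.cast_le.2 (card_le_card fun n hn => ?_)
    rw [mem_filter] at hn ⊢
    refine ⟨hn.1, ?_⟩
    have h2 := hn.2
    have h3 := (abs_le.1 h1).2
    linarith
  rw [tendsto_order]
  constructor
  · intro a ha
    have h1 : ∀ᶠ x in 𝓝 t, a < (ProbabilityTheory.gaussianReal 0 1).real (Set.Iic x) :=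
      Pool.Agent.N160.SN.gauss_cont.continuousAt.eventually (lt_mem_nhds ha)
    obtain ⟨r, hr, hball⟩ := Metric.eventually_nhds_iff.1 h1
    have h2 : a < (ProbabilityTheory.gaussianReal 0 1).real (Set.Iic (t - r / 2)) := by
      apply hball
      rw [Real.dist_eq, abs_lt]
      constructor <;> linarith
    filter_upwards [(hlaw (t - r / 2)).eventually (lt_mem_nhds h2), hlo (r / 2) (by positivity)]
      with X h3 h4
    exact h3.trans_le h4
  · intro b' hb'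
    have h1 : ∀ᶠ x in 𝓝 t, (ProbabilityTheory.gaussianReal 0 1).real (Set.Iic x) < b' :=
      Pool.Agent.N160.SN.gauss_cont.continuousAt.eventually (gt_mem_nhds hb')
    obtain ⟨r, hr, hball⟩ := Metric.eventually_nhds_iff.1 h1
    have h2 : (ProbabilityTheory.gaussianReal 0 1).real (Set.Iic (t + r / 2)) < b' := by
      apply hball
      rw [Real.dist_eq, abs_lt]
      constructor <;> linarith
    filter_upwards [(hlaw (t + r / 2)).eventually (gt_mem_nhds h2), hup (r / 2) (by positivity)]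
      with X h3 h4
    exact h4.trans_lt h3

/-- **The law of one additive function.** -/
theorem lawG1 {I : Type} [Fintype I] {c : I → ℕ} (hinj : Function.Injective c)
    (hc : ∀ i, Squarefree (c i) ∧ c i % 2 = 1) {M : ℕ} (hM0 : 0 < M) (h8 : 8 ∣ M)
    (hcM : ∀ i, c i ∣ M) {K : Finset ℕ} (hK0 : ∀ a ∈ K, a % 2 = 1)
    (hK1 : ∀ a ∈ K, ∀ i, (a * c i) % 4 = 3) (hK2 : ∀ a ∈ K, ∀ i, a.Coprime (c i))
    {n₀ : ℕ} (hn : Squarefree n₀) (hn₀ : n₀ % M ∈ K) {w : ℕ → ℝ}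
    (hw : ∀ p, w (p % M) = w p) {μ V : ℝ} (hμ : mean M w = μ)
    (hV : mean M (fun a => w a ^ 2) = V) (hV0 : 0 < V) (b t : ℝ) :
    Tendsto (fun X : ℕ => (((SQ M K X).filter fun n => (∀ i, Qc (c i * n)) ∧
      ∑ p ∈ n.primeFactors, w p + b ≤ μ * Real.log (Real.log X) +
        t * √(V * Real.log (Real.log X))).card : ℝ) / ((SQ M K X).card : ℝ)) atTop
      (𝓝 (eta ^ Fintype.card I * (ProbabilityTheory.gaussianReal 0 1).real (Set.Iic t))) := by
  have h2 : 2 ∣ M := Dvd.dvd.trans (by norm_num) h8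
  have hj := glg_shift hM0 h2 hK0 hn hn₀ hw hμ hV hV0 b t
  simp only [sum_cn hM0 hw] at hj ⊢
  exact mach hinj hc hM0 h8 hcM hK0 hK1 hK2 hn hn₀ (fun X f =>
    ∑ a ∈ range M, w a * (f a : ℝ) + b ≤ μ * Real.log (Real.log X) +
        t * √(V * Real.log (Real.log X))) hj

end Pool.Agent.N856.QL
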