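import Pool.Agent.N856.QB.Main
import Pool.Agent.N856.QL.LawG
import Pool.Agent.N681.QL.ORD
import Pool.Agent.N755.QL.MEAN
import Pool.Agent.N856.JL.FB

/-!
# QL (helper856): the Gaussian laws of the order of the Tate-Shafarevich group
-/

set_option autoImplicit false
set_option linter.unusedVariables false

open scoped Classical

namespace Pool.Agent.N856.QL.Fin

open Finset Filter Topology MeasureTheory ProbabilityTheory
open Pool.Agent.N969.P15 (Qc)
open Pool.Agent.N916.GB (Po)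
open Pool.Agent.N856.QB.Res (E Twist Disc Setting inert dim NoSelmer Proved eta count proved_iff
  good_iff sel_iff eta_bounds)
open Pool.Agent.N856.QL

/-- `log log X` -/
noncomputable def LL (X : ℕ) : ℝ := Real.log (Real.log X)

/-- among the numbers `m ≤ X` with the property `P`, the proportion of those with the property `Q X m`
tends to `δ` -/
def HasDens (P : ℕ → Prop) (Q : ℕ → ℕ → Prop) (δ : ℝ) : Prop :=
  Tendsto (fun X : ℕ => (count (fun m => P m ∧ Q X m) X : ℝ) / (count P X : ℝ)) atTop (𝓝 δ)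

/-- the distribution of the vector with the components `(g₀ + g_j) / 2`, where `g₀` and the `g_j` are
independent standard normal variables -/
noncomputable def Normal (J : Type) [Fintype J] : Measure (J → ℝ) :=
  (Measure.pi fun _ : Option J => gaussianReal 0 1).map fun g j => (g none + g (some j)) / 2

lemma normal_apply {J : Type} [Fintype J] {A : Set (J → ℝ)} (hA : MeasurableSet A) :
    Normal J A = PG J {g | Zv g ∈ A} := by
  unfold Normal
  rw [Measure.map_apply (by fun_prop) hA]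
  rfl

lemma normal_real {J : Type} [Fintype J] {A : Set (J → ℝ)} (hA : MeasurableSet A) :
    (Normal J).real A = (PG J).real {g | Zv g ∈ A} := by
  unfold Measure.real
  rw [normal_apply hA]

lemma cop_mod {n M d : ℕ} (h : d ∣ M) : (n % M).Coprime d ↔ n.Coprime d := by
  obtain ⟨k, rfl⟩ := h
  unfold Nat.Coprime
  rw [Nat.gcd_comm, Nat.gcd_comm n, Nat.gcd_rec d n, Nat.gcd_rec d (n % (d * k)),
    Nat.mod_mod_of_dvd n (Dvd.intro _ rfl)]

/-- a prime in a class -/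
lemma exists_p {a P : ℕ} (ha : a.Coprime 120) (hP : Nat.Coprime 120 P) (hP0 : 0 < P) :
    ∃ p, p.Prime ∧ p % 120 = a % 120 ∧ p.Coprime P := by
  obtain ⟨k, hk1, hk2⟩ := Nat.chineseRemainder hP a 1
  have hc1 : k.Coprime 120 := by
    have := hk1.gcd_eq
    unfold Nat.Coprime
    rw [this]
    exact ha
  have hc2 : k.Coprime P := by
    have := hk2.gcd_eq
    unfold Nat.Coprime
    rw [this, Nat.gcd_one_left]
  have hM0 : 120 * P ≠ 0 := by positivity
  obtain ⟨p, -, hp, hpk⟩ := Nat.forall_exists_prime_gt_and_modEq 0 hM0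
    (Nat.Coprime.mul_right hc1 hc2)
  have h1 : p ≡ k [MOD 120] := hpk.of_mul_right P
  have h2 : p ≡ k [MOD P] := hpk.of_mul_left 120
  refine ⟨p, hp, (h1.trans hk1), ?_⟩
  have := (h2.trans hk2).gcd_eq
  unfold Nat.Coprime
  rw [this, Nat.gcd_one_left]

/-- the indicator of the inert primes -/
noncomputable def wi (d : ℕ) (p : ℕ) : ℝ := if jacobiSym (p : ℤ) d = -1 then 1 else 0

lemma wi_mod {M d : ℕ} (h : d ∣ M) (p : ℕ) : wi d (p % M) = wi d p := by
  unfold wi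
  rw [jacobiSym.mod_left, jacobiSym.mod_left (p : ℤ)]
  have : ((p % M : ℕ) : ℤ) % (d : ℤ) = (p : ℤ) % (d : ℤ) := by
    exact_mod_cast Nat.mod_mod_of_dvd p h
  rw [this]

/-- the number of the inert prime factors -/
lemma sum_wi {n d : ℕ} (hn : n % 2 = 1) (hd : d % 4 = 1) :
    ∑ p ∈ n.primeFactors, wi d p = (inert n d : ℝ) := by
  unfold wi inert
  rw [sum_boole]
  congr 2
  refine filter_congr fun p hp => ?_
  have hp2 : Odd p := by
    obtain ⟨k, hk⟩ := Nat.dvd_of_mem_primeFactors hp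
    rw [← Nat.not_even_iff_odd]
    rintro ⟨r, hr⟩
    rw [hk, hr] at hn
    have : ((r + r) * k) % 2 = 0 := by
      rw [← two_mul, mul_assoc]
      exact Nat.mul_mod_right _ _
    omega
  rw [jacobiSym.quadratic_reciprocity_one_mod_four hd hp2]

/-- **Fixed fields: the joint law.** -/
theorem partA0 (𝒟 : Finset ℕ) (hne : 𝒟.Nonempty) (hD : ∀ d ∈ 𝒟, Disc d ∧ 1 < d)
    (A : Set (𝒟 → ℝ)) (hAm : MeasurableSet A) (hA : PG 𝒟 {g | Zv g ∈ frontier A} = 0) :
    HasDens (fun n => Twist n ∧ ∀ d ∈ 𝒟, n.Coprime d)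
      (fun X n => (∀ d ∈ 𝒟, Proved n d) ∧
        (fun d : 𝒟 => ((dim n d : ℝ) - 2 - LL X / 2) / √(LL X)) ∈ A)
      (eta ^ (𝒟.card + 1) * (PG 𝒟).real {g | Zv g ∈ A}) := by
  have h1not : (1 : ℕ) ∉ 𝒟 := fun h => by
    have := (hD 1 h).2
    omega
  set Pd := ∏ d ∈ 𝒟, d with hPd
  have hP0 : 0 < Pd := Finset.prod_pos fun d hd => by
    have := (hD d hd).2
    omega
  have hPc : Nat.Coprime 120 Pd := Nat.Coprime.prod_right fun d hd =>
    (Pool.Agent.N856.QB.Dens.dsc_cop (hD d hd).1).symm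
  obtain ⟨M, hM⟩ : ∃ M, M = 120 * Pd := ⟨_, rfl⟩
  have hM0 : 0 < M := by
    rw [hM]
    positivity
  have h120 : 120 ∣ M := by
    rw [hM]
    exact Dvd.intro _ rfl
  have h8 : 8 ∣ M := Dvd.dvd.trans (by norm_num) h120
  have h2 : 2 ∣ M := Dvd.dvd.trans (by norm_num) h120
  have h60 : 60 ∣ M := Dvd.dvd.trans (by norm_num) h120
  have hdM : ∀ d ∈ 𝒟, d ∣ M := fun d hd => by
    rw [hM]
    exact Dvd.dvd.mul_left (Finset.dvd_prod_of_mem _ hd) 120
  obtain ⟨K, hK⟩ : ∃ K : Finset ℕ, K = (range M).filter fun a =>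
    (a % 60 = 23 ∨ a % 60 = 47) ∧ ∀ d ∈ 𝒟, a.Coprime d := ⟨_, rfl⟩
  have hmem : ∀ n, n % M ∈ K ↔ (n % 60 = 23 ∨ n % 60 = 47) ∧ ∀ d ∈ 𝒟, n.Coprime d := by
    intro n
    rw [hK, mem_filter, mem_range, Nat.mod_mod_of_dvd n h60]
    constructor
    · rintro ⟨-, h, h'⟩
      exact ⟨h, fun d hd => (cop_mod (hdM d hd)).1 (h' d hd)⟩
    · rintro ⟨h, h'⟩
      exact ⟨Nat.mod_lt _ hM0, h, fun d hd => (cop_mod (hdM d hd)).2 (h' d hd)⟩
  have hKa : ∀ a ∈ K, (a % 60 = 23 ∨ a % 60 = 47) ∧ ∀ d ∈ 𝒟, a.Coprime d := by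
    intro a ha
    rw [hK, mem_filter] at ha
    exact ha.2
  obtain ⟨n₀, hp, hp1, hp2⟩ := exists_p (a := 23) (by norm_num) hPc hP0
  have hn₀ : n₀ % M ∈ K := by
    rw [hmem]
    refine ⟨by omega, fun d hd => ?_⟩
    exact Nat.Coprime.coprime_dvd_right (Finset.dvd_prod_of_mem _ hd) hp2
  have hq : ∀ q ∈ insert 1 𝒟, Squarefree q ∧ q % 4 = 1 ∧ q ∣ M := by
    intro q hq
    rw [mem_insert] at hq
    rcases hq with rfl | hq
    · exact ⟨squarefree_one, rfl, one_dvd _⟩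
    · obtain ⟨g1, g2, -⟩ := (hD q hq).1
      exact ⟨g1, by omega, hdM q hq⟩
  have hmean : ∀ u : ℕ → ℝ, mean M (fun a => ∑ d ∈ 𝒟, u d * wi d a) = (∑ d ∈ 𝒟, u d) / 2 ∧
      mean M (fun a => (∑ d ∈ 𝒟, u d * wi d a) ^ 2) =
        (∑ d ∈ 𝒟, u d) ^ 2 / 4 + (∑ d ∈ 𝒟, u d ^ 2) / 4 :=
    Pool.Agent.N755.QL.t_MEAN M hM0 h2 𝒟 (fun d hd => by
      obtain ⟨⟨g1, g2, -⟩, g3⟩ := hD d hd
      exact ⟨g1, by omega, g3⟩) (by
      rw [hM]
      exact Dvd.intro_left _ rfl)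
  have h := lawG (I := (insert 1 𝒟 : Finset ℕ)) (c := fun q => (q : ℕ)) Subtype.val_injective
    (fun q => ⟨(hq q q.2).1, by
      have := (hq q q.2).2.1
      omega⟩) hM0 h8 (fun q => (hq q q.2).2.2) (K := K) (fun a ha => by
      have := (hKa a ha).1
      omega) (fun a ha q => by
      have h3 := (hKa a ha).1
      have h4 := (hq q q.2).2.1
      have h5 : a % 4 = 3 := by omega
      rw [Nat.mul_mod, h5, h4]) (fun a ha q => by
      rcases mem_insert.1 q.2 with h3 | h3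
      · rw [h3]
        exact Nat.coprime_one_right a
      · exact (hKa a ha).2 q h3) hp.prime.squarefree hn₀ (J := 𝒟) (w := fun j => wi j)
      (fun j p => wi_mod (hdM j j.2) p) (μ := fun _ => 1 / 2) (fun j => by
        have h3 := (hmean fun d => if d = (j : ℕ) then 1 else 0).1
        have e1 : ∀ a, ∑ d ∈ 𝒟, (if d = (j : ℕ) then (1 : ℝ) else 0) * wi d a = wi j a := by
          intro a
          simp only [ite_mul, one_mul, zero_mul]
          rw [sum_ite_eq' 𝒟, if_pos j.2]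
        have e2 : ∑ d ∈ 𝒟, (if d = (j : ℕ) then (1 : ℝ) else 0) = 1 := by
          rw [sum_ite_eq' 𝒟, if_pos j.2]
        simp only [e1, e2] at h3
        exact h3) (fun θ => by
        have h3 := (hmean fun d => if h : d ∈ 𝒟 then θ ⟨d, h⟩ else 0).2
        have e0 : ∀ f : ℕ → ℝ → ℝ, ∑ d ∈ 𝒟, f d (if h : d ∈ 𝒟 then θ ⟨d, h⟩ else 0) =
            ∑ j : 𝒟, f j (θ j) := by
          intro f
          rw [← sum_attach]
          exact sum_congr rfl fun d _ => by rw [dif_pos d.2]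
        have e1 : ∀ a, ∑ d ∈ 𝒟, (if h : d ∈ 𝒟 then θ ⟨d, h⟩ else 0) * wi d a =
            ∑ j : 𝒟, θ j * wi j a := fun a => e0 fun d x => x * wi d a
        have e2 : ∑ d ∈ 𝒟, (if h : d ∈ 𝒟 then θ ⟨d, h⟩ else 0) = ∑ j : 𝒟, θ j :=
          e0 fun _ x => x
        have e3 : ∑ d ∈ 𝒟, (if h : d ∈ 𝒟 then θ ⟨d, h⟩ else 0) ^ 2 = ∑ j : 𝒟, θ j ^ 2 :=
          e0 fun _ x => x ^ 2
        simp only [e1, e2, e3] at h3
        exact h3) (fun j => ((j : ℕ).primeFactors.card : ℝ) - 2) A hAm hA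
  rw [Fintype.card_coe, card_insert_of_notMem h1not] at h
  unfold HasDens
  refine h.congr fun X => ?_
  unfold count SQ
  rw [filter_filter]
  congr 3
  · ext n
    simp only [mem_filter]
    refine and_congr_right fun _ => ?_
    rw [hmem]
    constructor
    · rintro ⟨⟨g1, g2, g3⟩, g4, g5⟩
      have hT : Twist n := ⟨g1, g2⟩
      have hS : ∀ d ∈ 𝒟, Setting n d := fun d hd => ⟨hT, (hD d hd).1, (hD d hd).2, g3 d hd⟩
      refine ⟨⟨hT, g3⟩, fun d hd => ?_, ?_⟩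
      · refine (proved_iff Pool.Agent.N856.QB.hyps (hS d hd)).2 ((good_iff (hS d hd)).2 ⟨?_, ?_⟩)
        · have := g4 ⟨1, mem_insert_self _ _⟩
          rwa [one_mul] at this
        · have := g4 ⟨d, mem_insert_of_mem hd⟩
          rwa [mul_comm] at this
      · convert g5 using 1
        funext j
        have h9 := sum_wi (n := n) (d := j) (by omega) (by
          have := (hD j j.2).1.2.1
          omega)
        rw [h9]
        unfold dim LL
        push_cast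
        ring
    · rintro ⟨⟨hT, g3⟩, g4, g5⟩
      have hS : ∀ d ∈ 𝒟, Setting n d := fun d hd => ⟨hT, (hD d hd).1, (hD d hd).2, g3 d hd⟩
      obtain ⟨g1, g2⟩ := hT
      have hg : ∀ d ∈ 𝒟, Qc n ∧ Qc (n * d) := fun d hd => (good_iff (hS d hd)).1
        ((proved_iff Pool.Agent.N856.QB.hyps (hS d hd)).1 (g4 d hd))
      refine ⟨⟨g1, g2, g3⟩, ?_, ?_⟩
      · rintro ⟨q, hq'⟩
        show Qc (q * n)
        rcases mem_insert.1 hq' with rfl | h3
        · obtain ⟨d, hd⟩ := hne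
          rw [one_mul]
          exact (hg d hd).1
        · rw [mul_comm]
          exact (hg q h3).2
      · convert g5 using 1
        funext j
        have h9 := sum_wi (n := n) (d := j) (by omega) (by
          have := (hD j j.2).1.2.1
          omega)
        rw [h9]
        unfold dim LL
        push_cast
        ring
  · ext n
    simp only [mem_filter]
    refine and_congr_right fun _ => ?_
    rw [hmem]
    constructor
    · rintro ⟨g1, g2, g3⟩
      exact ⟨⟨g1, g2⟩, g3⟩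
    · rintro ⟨⟨g1, g2⟩, g3⟩
      exact ⟨g1, g2, g3⟩

/-- **Fixed fields: the joint law.** -/
theorem partA (𝒟 : Finset ℕ) (hne : 𝒟.Nonempty) (hD : ∀ d ∈ 𝒟, Disc d ∧ 1 < d)
    (A : Set (𝒟 → ℝ)) (hAm : MeasurableSet A) (hA : Normal 𝒟 (frontier A) = 0) :
    HasDens (fun n => Twist n ∧ ∀ d ∈ 𝒟, n.Coprime d)
      (fun X n => (∀ d ∈ 𝒟, Proved n d) ∧
        (fun d : 𝒟 => ((dim n d : ℝ) - 2 - LL X / 2) / √(LL X)) ∈ A)
      (eta ^ (𝒟.card + 1) * (Normal 𝒟).real A) := by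
  rw [normal_apply isClosed_frontier.measurableSet] at hA
  rw [normal_real hAm]
  exact partA0 𝒟 hne hD A hAm hA

/-- **Fixed fields: the orderings.** -/
theorem partO (𝒟 : Finset ℕ) (hne : 𝒟.Nonempty) (hD : ∀ d ∈ 𝒟, Disc d ∧ 1 < d)
    (σ : _root_.Fin 𝒟.card ≃ 𝒟) :
    HasDens (fun n => Twist n ∧ ∀ d ∈ 𝒟, n.Coprime d)
      (fun _ n => (∀ d ∈ 𝒟, Proved n d) ∧ StrictMono fun i => dim n (σ i))
      (eta ^ (𝒟.card + 1) / (Nat.factorial 𝒟.card : ℝ)) := by
  obtain ⟨h1, h2⟩ := Pool.Agent.N681.QL.t_ORD 𝒟 𝒟.card σ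
  have ho : IsOpen {z : 𝒟 → ℝ | StrictMono fun i => z (σ i)} := by
    have e : {z : 𝒟 → ℝ | StrictMono fun i => z (σ i)} =
        ⋂ i, ⋂ k, ⋂ (_ : i < k), {z : 𝒟 → ℝ | z (σ i) < z (σ k)} := by
      ext z
      simp only [Set.mem_ofPred_eq, Set.mem_iInter]
      rfl
    rw [e]
    refine isOpen_iInter_of_finite fun i => isOpen_iInter_of_finite fun k =>
      isOpen_iInter_of_finite fun _ => isOpen_lt (by fun_prop) (by fun_prop)
  have h := partA0 𝒟 hne hD _ ho.measurableSet h1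
  have e : (PG 𝒟).real {g | Zv g ∈ {z : 𝒟 → ℝ | StrictMono fun i => z (σ i)}} =
      1 / (Nat.factorial 𝒟.card : ℝ) := h2
  rw [e, mul_one_div] at h
  unfold HasDens at h ⊢
  refine h.congr' ?_
  have hL : Tendsto (fun X : ℕ => LL X) atTop atTop :=
    Real.tendsto_log_atTop.comp (Real.tendsto_log_atTop.comp tendsto_natCast_atTop_atTop)
  filter_upwards [hL.eventually_gt_atTop 0] with X hX
  have hs : 0 < √(LL X) := Real.sqrt_pos.2 hX
  congr 2
  unfold count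
  congr 1
  ext n
  simp only [mem_filter]
  refine and_congr_right fun _ => and_congr_right fun _ => and_congr_right fun _ => ?_
  constructor
  · intro h3 i k hik
    have h4 := h3 hik
    simp only at h4 ⊢
    rw [div_lt_div_iff_of_pos_right hs] at h4
    have h5 : (dim n (σ i) : ℝ) < dim n (σ k) := by linarith
    exact_mod_cast h5
  · intro h3 i k hik
    have h4 := h3 hik
    simp only at h4 ⊢
    rw [div_lt_div_iff_of_pos_right hs]
    have h5 : (dim n (σ i) : ℝ) < dim n (σ k) := by exact_mod_cast h4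
    linarith

/-- a squeeze for proportions -/
lemma squeeze {P : ℕ → Prop} {Q Q₁ Q₂ : ℕ → ℕ → Prop} {δ : ℝ} (h1 : HasDens P Q₁ δ)
    (h2 : HasDens P Q₂ δ) (hle : ∀ X n, P n → 1 < n → Q₁ X n → Q X n)
    (hle' : ∀ X n, P n → Q X n → Q₂ X n)
    (hP : Tendsto (fun X : ℕ => (count P X : ℝ)) atTop atTop) : HasDens P Q δ := by
  unfold HasDens at h1 h2 ⊢
  have h3 : Tendsto (fun X : ℕ => (count (fun m => P m ∧ Q₁ X m) X : ℝ) / (count P X : ℝ) -
      1 / (count P X : ℝ)) atTop (𝓝 δ) := by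
    have h4 : Tendsto (fun X : ℕ => 1 / (count P X : ℝ)) atTop (𝓝 0) :=
      hP.const_div_atTop 1
    have := h1.sub h4
    rwa [sub_zero] at this
  refine tendsto_of_tendsto_of_tendsto_of_le_of_le h3 h2 (fun X => ?_) (fun X => ?_)
  · simp only
    rw [← sub_div]
    refine div_le_div_of_nonneg_right ?_ (Nat.cast_nonneg _)
    have h4 : count (fun m => P m ∧ Q₁ X m) X ≤ count (fun m => P m ∧ Q X m) X + 1 := by
      change (Pool.Agent.N856.QB.Dens.ct _ X).card ≤ (Pool.Agent.N856.QB.Dens.ct _ X).card + 1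
      refine (card_le_card (t := Pool.Agent.N856.QB.Dens.ct (fun m => P m ∧ Q X m) X ∪ {1})
        ?_).trans ((card_union_le _ _).trans (by rw [card_singleton]))
      intro n hn
      rw [Pool.Agent.N856.QB.Dens.mem_ct] at hn
      rw [mem_union, Pool.Agent.N856.QB.Dens.mem_ct, mem_singleton]
      have h5 := (mem_Icc.1 hn.1).1
      rcases Nat.eq_or_lt_of_le h5 with h6 | h6
      · exact Or.inr h6.symm
      · exact Or.inl ⟨hn.1, hn.2.1, hle X n hn.2.1 h6 hn.2.2⟩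
    have h5 : (count (fun m => P m ∧ Q₁ X m) X : ℝ) ≤ count (fun m => P m ∧ Q X m) X + 1 := by
      exact_mod_cast h4
    linarith
  · refine div_le_div_of_nonneg_right ?_ (Nat.cast_nonneg _)
    refine Nat.cast_le.2 ?_
    change (Pool.Agent.N856.QB.Dens.ct _ X).card ≤ (Pool.Agent.N856.QB.Dens.ct _ X).card
    refine card_le_card fun n hn => ?_
    rw [Pool.Agent.N856.QB.Dens.mem_ct] at hn ⊢
    exact ⟨hn.1, hn.2.1, hle' X n hn.2.1 hn.2.2⟩

lemma twist_odd {n : ℕ} (h : Twist n) : n % 4 = 3 ∧ n % 2 = 1 := by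
  rcases h.2 with h | h <;> omega

/-- **Fixed curves.** -/
theorem partB (𝒩 : Finset ℕ) (hne : 𝒩.Nonempty) (hN : ∀ n ∈ 𝒩, Twist n ∧ NoSelmer n) (t : ℝ) :
    HasDens (fun d => Disc d ∧ ∀ n ∈ 𝒩, n.Coprime d)
      (fun X d => 1 < d ∧ ∀ n ∈ 𝒩, Proved n d ∧ (dim n d : ℝ) - 2 ≤ LL X + t * √(LL X))
      (eta ^ 𝒩.card * (gaussianReal 0 1).real (Set.Iic t)) := by
  set Pn := ∏ n ∈ 𝒩, n with hPn
  have hP0 : 0 < Pn := Finset.prod_pos fun n hn => Nat.pos_of_ne_zero (hN n hn).1.1.ne_zero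
  obtain ⟨M, hM⟩ : ∃ M, M = 120 * Pn := ⟨_, rfl⟩
  have hM0 : 0 < M := by
    rw [hM]
    positivity
  have h120 : 120 ∣ M := by
    rw [hM]
    exact Dvd.intro _ rfl
  have h8 : 8 ∣ M := Dvd.dvd.trans (by norm_num) h120
  have h2 : 2 ∣ M := Dvd.dvd.trans (by norm_num) h120
  have h60 : 60 ∣ M := Dvd.dvd.trans (by norm_num) h120
  have hdM : ∀ n ∈ 𝒩, n ∣ M := fun n hn => by
    rw [hM]
    exact Dvd.dvd.mul_left (Finset.dvd_prod_of_mem _ hn) 120
  obtain ⟨K, hK⟩ : ∃ K : Finset ℕ, K = (range M).filter fun a =>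
    (a % 12 = 1 ∧ (a % 5 = 1 ∨ a % 5 = 4)) ∧ ∀ n ∈ 𝒩, a.Coprime n := ⟨_, rfl⟩
  have h12' : ∀ n, n % M % 12 = n % 12 := fun n =>
    Nat.mod_mod_of_dvd n (Dvd.dvd.trans (by norm_num) h120)
  have h5' : ∀ n, n % M % 5 = n % 5 := fun n =>
    Nat.mod_mod_of_dvd n (Dvd.dvd.trans (by norm_num) h120)
  have hmem : ∀ d, d % M ∈ K ↔ (d % 12 = 1 ∧ (d % 5 = 1 ∨ d % 5 = 4)) ∧
      ∀ n ∈ 𝒩, d.Coprime n := by
    intro d
    rw [hK, mem_filter, mem_range, h12', h5']
    constructor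
    · rintro ⟨-, h, h'⟩
      exact ⟨h, fun n hn => (cop_mod (hdM n hn)).1 (h' n hn)⟩
    · rintro ⟨h, h'⟩
      exact ⟨Nat.mod_lt _ hM0, h, fun n hn => (cop_mod (hdM n hn)).2 (h' n hn)⟩
  have hKa : ∀ a ∈ K, (a % 12 = 1 ∧ (a % 5 = 1 ∨ a % 5 = 4)) ∧ ∀ n ∈ 𝒩, a.Coprime n := by
    intro a ha
    rw [hK, mem_filter] at ha
    exact ha.2
  have hn₀ : 1 % M ∈ K := by
    rw [hmem]
    exact ⟨⟨by norm_num, by norm_num⟩, fun n _ => Nat.coprime_one_left n⟩
  have hone : mean M (fun _ => 1) = 1 := by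
    unfold mean
    rw [sum_const, nsmul_eq_mul, mul_one]
    have e3 : ((range M).filter fun a => a.Coprime M).card = Nat.totient M := by
      rw [Nat.totient_eq_card_coprime]
      congr 1
      ext a
      simp only [mem_filter, Nat.coprime_comm]
    rw [e3, div_self]
    exact_mod_cast (Nat.totient_pos.2 hM0).ne'
  have hone' : mean M (fun a => (fun _ : ℕ => (1 : ℝ)) a ^ 2) = 1 := by
    simp only [one_pow]
    exact hone
  have hmain : ∀ b : ℝ, HasDens (fun d => Disc d ∧ ∀ n ∈ 𝒩, n.Coprime d)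
      (fun X d => (∀ n ∈ 𝒩, Qc (n * d)) ∧ (d.primeFactors.card : ℝ) + b ≤ LL X + t * √(LL X))
      (eta ^ 𝒩.card * (gaussianReal 0 1).real (Set.Iic t)) := by
    intro b
    have h := lawG1 (I := 𝒩) (c := fun q => (q : ℕ)) Subtype.val_injective
      (fun q => ⟨(hN q q.2).1.1, (twist_odd (hN q q.2).1).2⟩) hM0 h8 (fun q => hdM q q.2) (K := K)
      (fun a ha => by
        have := (hKa a ha).1.1
        omega) (fun a ha q => by
        have h3 := (hKa a ha).1.1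
        have h4 := (twist_odd (hN q q.2).1).1
        have h5 : a % 4 = 1 := by omega
        rw [Nat.mul_mod, h5, h4]) (fun a ha q => (hKa a ha).2 q q.2) squarefree_one hn₀
      (w := fun _ => 1) (fun _ => rfl) (μ := 1) (V := 1) hone hone' one_pos b t
    rw [Fintype.card_coe] at h
    unfold HasDens
    refine h.congr fun X => ?_
    unfold count SQ
    rw [filter_filter]
    congr 3
    · ext d
      simp only [mem_filter]
      refine and_congr_right fun _ => ?_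
      rw [hmem]
      unfold LL
      rw [sum_const, nsmul_eq_mul, mul_one, one_mul]
      constructor
      · rintro ⟨⟨g1, g2, g3⟩, g4, g5⟩
        exact ⟨⟨⟨g1, g2⟩, fun n hn => (g3 n hn).symm⟩, fun n hn => g4 ⟨n, hn⟩, g5⟩
      · rintro ⟨⟨⟨g1, g2⟩, g3⟩, g4, g5⟩
        exact ⟨⟨g1, g2, fun n hn => (g3 n hn).symm⟩, fun n => g4 n n.2, g5⟩
    · ext d
      simp only [mem_filter]
      refine and_congr_right fun _ => ?_
      rw [hmem]
      constructor
      · rintro ⟨g1, g2, g3⟩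
        exact ⟨⟨g1, g2⟩, fun n hn => (g3 n hn).symm⟩
      · rintro ⟨⟨g1, g2⟩, g3⟩
        exact ⟨g1, g2, fun n hn => (g3 n hn).symm⟩
  obtain ⟨B, hB⟩ : ∃ B : ℕ, B = ∑ n ∈ 𝒩, n.primeFactors.card := ⟨_, rfl⟩
  have hinert : ∀ n ∈ 𝒩, ∀ d, inert n d ≤ B := by
    intro n hn d
    rw [hB]
    refine le_trans ?_ (single_le_sum (f := fun n : ℕ => n.primeFactors.card)
      (fun _ _ => Nat.zero_le _) hn)
    exact card_le_card (filter_subset _ _)
  refine squeeze (hmain ((B : ℝ) - 2)) (hmain (-2)) ?_ ?_ ?_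
  · rintro X d ⟨g1, g2⟩ h1 ⟨g3, g4⟩
    refine ⟨h1, fun n hn => ?_⟩
    have hS : Setting n d := ⟨(hN n hn).1, g1, h1, g2 n hn⟩
    refine ⟨(proved_iff Pool.Agent.N856.QB.hyps hS).2 ((good_iff hS).2
      ⟨(sel_iff (hN n hn).1).1 (hN n hn).2, g3 n hn⟩), ?_⟩
    have h4 : (inert n d : ℝ) ≤ B := by exact_mod_cast hinert n hn d
    unfold dim
    push_cast
    linarith
  · rintro X d ⟨g1, g2⟩ ⟨h1, g3⟩
    refine ⟨fun n hn => ?_, ?_⟩
    · have hS : Setting n d := ⟨(hN n hn).1, g1, h1, g2 n hn⟩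
      exact ((good_iff hS).1 ((proved_iff Pool.Agent.N856.QB.hyps hS).1 (g3 n hn).1)).2
    · obtain ⟨n, hn⟩ := hne
      have h4 := (g3 n hn).2
      have h5 : (0 : ℝ) ≤ inert n d := Nat.cast_nonneg _
      unfold dim at h4
      push_cast at h4
      linarith
  · obtain ⟨c₁, X₁, hc₁, hlow⟩ := SQ_low hM0 h2 squarefree_one hn₀
    have h3 : Tendsto (fun X : ℕ => c₁ * (X : ℝ)) atTop atTop :=
      tendsto_natCast_atTop_atTop.const_mul_atTop hc₁
    refine tendsto_atTop_mono' _ ?_ h3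
    filter_upwards [eventually_ge_atTop X₁] with X hX
    refine (hlow X hX).trans (le_of_eq ?_)
    unfold count SQ
    congr 2
    ext d
    simp only [mem_filter]
    refine and_congr_right fun _ => ?_
    rw [hmem]
    constructor
    · rintro ⟨g1, g2, g3⟩
      exact ⟨⟨g1, g2⟩, fun n hn => (g3 n hn).symm⟩
    · rintro ⟨⟨g1, g2⟩, g3⟩
      exact ⟨g1, g2, fun n hn => (g3 n hn).symm⟩

/-- a class of the `d` with given symbols -/
lemma exists_cls (𝒩 : Finset ℕ) (hN : ∀ n ∈ 𝒩, Twist n) (ε : ℕ → ℤ)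
    (hε : ∀ n ∈ 𝒩, ∀ p ∈ n.primeFactors, ε p = 1 ∨ ε p = -1) :
    ∃ d : ℕ, Squarefree d ∧ d % 12 = 1 ∧ d % 5 = 1 ∧ (∀ n ∈ 𝒩, d.Coprime n) ∧
      ∀ n ∈ 𝒩, ∀ p ∈ n.primeFactors, jacobiSym d p = ε p := by
  have hpp : ∀ n ∈ 𝒩, ∀ p ∈ n.primeFactors, Po p ∧ p ≠ 3 ∧ p ≠ 5 := by
    intro n hn p hp
    have h1 := (hN n hn).2
    have h2 := Nat.dvd_of_mem_primeFactors hp
    refine ⟨⟨Nat.prime_of_mem_primeFactors hp, ?_⟩, ?_, ?_⟩ <;> (rintro rfl; omega)
  set Z : Finset ℕ := {3, 5} ∪ 𝒩.biUnion fun n => n.primeFactors with hZ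
  have hZp : ∀ u ∈ Z, Po u := by
    intro u hu
    rw [hZ, mem_union, mem_insert, mem_singleton, mem_biUnion] at hu
    rcases hu with (rfl | rfl) | ⟨n, hn, hu⟩
    · exact ⟨by norm_num, by norm_num⟩
    · exact ⟨by norm_num, by norm_num⟩
    · exact (hpp n hn u hu).1
  have hg : ∀ u : ℕ, ∃ g : ℕ, Po u → g.Coprime u ∧ jacobiSym g u = -1 := by
    intro u
    by_cases hu : Po u
    · obtain ⟨g, hg⟩ := Pool.Agent.N755.QL.exists_g hu.1 hu.2
      refine ⟨g, fun _ => ⟨?_, hg⟩⟩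
      by_contra hc
      haveI : NeZero u := ⟨hu.1.ne_zero⟩
      have h0 : jacobiSym (g : ℤ) u = 0 := (jacobiSym.eq_zero_iff_not_coprime).2 (by
        rw [Int.gcd_natCast_natCast]
        exact hc)
      rw [h0] at hg
      norm_num at hg
    · exact ⟨0, fun h => absurd h hu⟩
  choose g hg using hg
  obtain ⟨a, ha1, ha2, ha3⟩ := Pool.Agent.N856.JL.FB.crt Z hZp
    (fun u => if u = 3 ∨ u = 5 ∨ ε u = 1 then 1 else g u) (fun u hu => by
      by_cases h : u = 3 ∨ u = 5 ∨ ε u = 1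
      · simp only [if_pos h]
        exact Nat.coprime_one_left u
      · simp only [if_neg h]
        exact (hg u (hZp u hu)).1) 1 rfl
  have hM0 : 8 * ∏ u ∈ Z, u ≠ 0 := by
    refine Nat.mul_ne_zero (by norm_num) (Finset.prod_ne_zero_iff.2 fun u hu => ?_)
    exact (hZp u hu).1.ne_zero
  obtain ⟨p, -, hp, hpa⟩ := Nat.forall_exists_prime_gt_and_modEq 0 hM0 ha1
  have h8 : p % 8 = 1 := by
    have : p ≡ a [MOD 8] := hpa.of_mul_right _
    exact this.trans ha2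
  have hu : ∀ u ∈ Z, p % u = (if u = 3 ∨ u = 5 ∨ ε u = 1 then 1 else g u) % u := by
    intro u hu
    have : p ≡ a [MOD u] := hpa.of_dvd ((Finset.dvd_prod_of_mem _ hu).mul_left 8)
    exact this.trans (ha3 u hu)
  have h3 : p % 3 = 1 := by
    have := hu 3 (by rw [hZ]; simp)
    simpa using this
  have h5 : p % 5 = 1 := by
    have := hu 5 (by rw [hZ]; simp)
    simpa using this
  refine ⟨p, hp.prime.squarefree, by omega, h5, fun n hn => ?_, fun n hn q hq => ?_⟩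
  · rw [hp.coprime_iff_not_dvd]
    intro hd
    have hpm : p ∈ n.primeFactors := by
      rw [Nat.mem_primeFactors]
      exact ⟨hp, hd, (hN n hn).1.ne_zero⟩
    have hpZ : p ∈ Z := by
      rw [hZ, mem_union, mem_biUnion]
      exact Or.inr ⟨n, hn, hpm⟩
    have h6 := hu p hpZ
    rw [Nat.mod_self] at h6
    have h7 : (if p = 3 ∨ p = 5 ∨ ε p = 1 then 1 else g p).Coprime p := by
      by_cases h : p = 3 ∨ p = 5 ∨ ε p = 1
      · rw [if_pos h]
        exact Nat.coprime_one_left p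
      · rw [if_neg h]
        exact (hg p (hZp p hpZ)).1
    have h8 := Nat.dvd_of_mod_eq_zero h6.symm
    have h9 := Nat.dvd_gcd h8 dvd_rfl
    rw [h7] at h9
    exact hp.one_lt.ne' (Nat.dvd_one.1 h9)
  · have hqZ : q ∈ Z := by
      rw [hZ, mem_union, mem_biUnion]
      exact Or.inr ⟨n, hn, hq⟩
    obtain ⟨hP, h3', h5'⟩ := hpp n hn q hq
    have h6 := hu q hqZ
    have h7 : jacobiSym (p : ℤ) q = jacobiSym ((if q = 3 ∨ q = 5 ∨ ε q = 1 then 1 else g q : ℕ) : ℤ)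
        q := by
      rw [jacobiSym.mod_left, jacobiSym.mod_left ((if q = 3 ∨ q = 5 ∨ ε q = 1 then 1 else g q : ℕ) : ℤ)]
      have : (p : ℤ) % (q : ℤ) = ((if q = 3 ∨ q = 5 ∨ ε q = 1 then 1 else g q : ℕ) : ℤ) % (q : ℤ) := by
        exact_mod_cast h6
      rw [this]
    rw [h7]
    by_cases h : ε q = 1
    · rw [if_pos (Or.inr (Or.inr h)), h, Nat.cast_one, jacobiSym.one_left]
    · rw [if_neg (by tauto), (hg q hP).2]
      exact ((hε n hn q hq).resolve_left h).symm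

/-- **Fixed curves, prescribed splitting.** -/
theorem partB' (𝒩 : Finset ℕ) (hne : 𝒩.Nonempty) (hN : ∀ n ∈ 𝒩, Twist n ∧ NoSelmer n)
    (ε : ℕ → ℤ) (hε : ∀ n ∈ 𝒩, ∀ p ∈ n.primeFactors, ε p = 1 ∨ ε p = -1) (t : ℝ) :
    HasDens (fun d => Disc d ∧ ∀ n ∈ 𝒩, n.Coprime d ∧ ∀ p ∈ n.primeFactors, jacobiSym d p = ε p)
      (fun X d => 1 < d ∧ (∀ n ∈ 𝒩, Proved n d ∧
        dim n d = d.primeFactors.card + (n.primeFactors.filter fun p => ε p = -1).card) ∧
        (d.primeFactors.card : ℝ) ≤ LL X + t * √(LL X))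
      (eta ^ 𝒩.card * (gaussianReal 0 1).real (Set.Iic t)) := by
  set Pn := ∏ n ∈ 𝒩, n with hPn
  have hP0 : 0 < Pn := Finset.prod_pos fun n hn => Nat.pos_of_ne_zero (hN n hn).1.1.ne_zero
  obtain ⟨M, hM⟩ : ∃ M, M = 120 * Pn := ⟨_, rfl⟩
  have hM0 : 0 < M := by
    rw [hM]
    positivity
  have h120 : 120 ∣ M := by
    rw [hM]
    exact Dvd.intro _ rfl
  have h8 : 8 ∣ M := Dvd.dvd.trans (by norm_num) h120
  have h2 : 2 ∣ M := Dvd.dvd.trans (by norm_num) h120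
  have hdM : ∀ n ∈ 𝒩, n ∣ M := fun n hn => by
    rw [hM]
    exact Dvd.dvd.mul_left (Finset.dvd_prod_of_mem _ hn) 120
  obtain ⟨K, hK⟩ : ∃ K : Finset ℕ, K = (range M).filter fun a : ℕ =>
    (a % 12 = 1 ∧ (a % 5 = 1 ∨ a % 5 = 4)) ∧ ∀ n ∈ 𝒩, a.Coprime n ∧
      ∀ p ∈ n.primeFactors, jacobiSym (a : ℤ) p = ε p := ⟨_, rfl⟩
  have h12' : ∀ n, n % M % 12 = n % 12 := fun n =>
    Nat.mod_mod_of_dvd n (Dvd.dvd.trans (by norm_num) h120)
  have h5' : ∀ n, n % M % 5 = n % 5 := fun n =>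
    Nat.mod_mod_of_dvd n (Dvd.dvd.trans (by norm_num) h120)
  have hj : ∀ n ∈ 𝒩, ∀ p ∈ n.primeFactors, ∀ d : ℕ,
      jacobiSym ((d % M : ℕ) : ℤ) p = jacobiSym (d : ℤ) p := by
    intro n hn p hp d
    rw [jacobiSym.mod_left, jacobiSym.mod_left (d : ℤ)]
    have : ((d % M : ℕ) : ℤ) % (p : ℤ) = (d : ℤ) % (p : ℤ) := by
      exact_mod_cast Nat.mod_mod_of_dvd d ((Nat.dvd_of_mem_primeFactors hp).trans (hdM n hn))
    rw [this]
  have hmem : ∀ d : ℕ, d % M ∈ K ↔ (d % 12 = 1 ∧ (d % 5 = 1 ∨ d % 5 = 4)) ∧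
      ∀ n ∈ 𝒩, d.Coprime n ∧ ∀ p ∈ n.primeFactors, jacobiSym (d : ℤ) p = ε p := by
    intro d
    rw [hK, mem_filter, mem_range, h12', h5']
    constructor
    · rintro ⟨-, h, h'⟩
      exact ⟨h, fun n hn => ⟨(cop_mod (hdM n hn)).1 (h' n hn).1, fun p hp =>
        (hj n hn p hp d).symm.trans ((h' n hn).2 p hp)⟩⟩
    · rintro ⟨h, h'⟩
      exact ⟨Nat.mod_lt _ hM0, h, fun n hn => ⟨(cop_mod (hdM n hn)).2 (h' n hn).1, fun p hp =>
        (hj n hn p hp d).trans ((h' n hn).2 p hp)⟩⟩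
  have hKa : ∀ a ∈ K, (a % 12 = 1 ∧ (a % 5 = 1 ∨ a % 5 = 4)) ∧ ∀ n ∈ 𝒩, a.Coprime n := by
    intro a ha
    rw [hK, mem_filter] at ha
    exact ⟨ha.2.1, fun n hn => (ha.2.2 n hn).1⟩
  obtain ⟨d₀, k1, k2, k3, k4, k5⟩ := exists_cls 𝒩 (fun n hn => (hN n hn).1) ε hε
  have hn₀ : d₀ % M ∈ K := by
    rw [hmem]
    exact ⟨⟨k2, Or.inl k3⟩, fun n hn => ⟨k4 n hn, k5 n hn⟩⟩
  have hone : mean M (fun _ => 1) = 1 := by
    unfold mean
    rw [sum_const, nsmul_eq_mul, mul_one]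
    have e3 : ((range M).filter fun a => a.Coprime M).card = Nat.totient M := by
      rw [Nat.totient_eq_card_coprime]
      congr 1
      ext a
      simp only [mem_filter, Nat.coprime_comm]
    rw [e3, div_self]
    exact_mod_cast (Nat.totient_pos.2 hM0).ne'
  have hone' : mean M (fun a => (fun _ : ℕ => (1 : ℝ)) a ^ 2) = 1 := by
    simp only [one_pow]
    exact hone
  have hmain : HasDens (fun d => Disc d ∧ ∀ n ∈ 𝒩, n.Coprime d ∧
      ∀ p ∈ n.primeFactors, jacobiSym d p = ε p)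
      (fun X d => (∀ n ∈ 𝒩, Qc (n * d)) ∧ (d.primeFactors.card : ℝ) ≤ LL X + t * √(LL X))
      (eta ^ 𝒩.card * (gaussianReal 0 1).real (Set.Iic t)) := by
    have h := lawG1 (I := 𝒩) (c := fun q => (q : ℕ)) Subtype.val_injective
      (fun q => ⟨(hN q q.2).1.1, (twist_odd (hN q q.2).1).2⟩) hM0 h8 (fun q => hdM q q.2) (K := K)
      (fun a ha => by
        have := (hKa a ha).1.1
        omega) (fun a ha q => by
        have h3 := (hKa a ha).1.1
        have h4 := (twist_odd (hN q q.2).1).1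
        have h5 : a % 4 = 1 := by omega
        rw [Nat.mul_mod, h5, h4]) (fun a ha q => (hKa a ha).2 q q.2) k1 hn₀
      (w := fun _ => 1) (fun _ => rfl) (μ := 1) (V := 1) hone hone' one_pos 0 t
    rw [Fintype.card_coe] at h
    unfold HasDens
    refine h.congr fun X => ?_
    unfold count SQ
    rw [filter_filter]
    congr 3
    · ext d
      simp only [mem_filter]
      refine and_congr_right fun _ => ?_
      rw [hmem]
      unfold LL
      rw [sum_const, nsmul_eq_mul, mul_one, one_mul, add_zero]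
      constructor
      · rintro ⟨⟨g1, g2, g3⟩, g4, g5⟩
        exact ⟨⟨⟨g1, g2⟩, fun n hn => ⟨(g3 n hn).1.symm, (g3 n hn).2⟩⟩,
          fun n hn => g4 ⟨n, hn⟩, g5⟩
      · rintro ⟨⟨⟨g1, g2⟩, g3⟩, g4, g5⟩
        exact ⟨⟨g1, g2, fun n hn => ⟨(g3 n hn).1.symm, (g3 n hn).2⟩⟩, fun n => g4 n n.2, g5⟩
    · ext d
      simp only [mem_filter]
      refine and_congr_right fun _ => ?_
      rw [hmem]
      constructor
      · rintro ⟨g1, g2, g3⟩
        exact ⟨⟨g1, g2⟩, fun n hn => ⟨(g3 n hn).1.symm, (g3 n hn).2⟩⟩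
      · rintro ⟨⟨g1, g2⟩, g3⟩
        exact ⟨g1, g2, fun n hn => ⟨(g3 n hn).1.symm, (g3 n hn).2⟩⟩
  have hdim : ∀ d : ℕ, ∀ n ∈ 𝒩, (∀ p ∈ n.primeFactors, jacobiSym d p = ε p) →
      dim n d = d.primeFactors.card + (n.primeFactors.filter fun p => ε p = -1).card := by
    intro d n hn h
    unfold dim inert
    congr 2
    refine filter_congr fun p hp => ?_
    rw [h p hp]
  refine squeeze hmain hmain ?_ ?_ ?_
  · rintro X d ⟨g1, g2⟩ h1 ⟨g3, g4⟩
    refine ⟨h1, fun n hn => ?_, g4⟩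
    have hS : Setting n d := ⟨(hN n hn).1, g1, h1, (g2 n hn).1⟩
    exact ⟨(proved_iff Pool.Agent.N856.QB.hyps hS).2 ((good_iff hS).2
      ⟨(sel_iff (hN n hn).1).1 (hN n hn).2, g3 n hn⟩), hdim d n hn (g2 n hn).2⟩
  · rintro X d ⟨g1, g2⟩ ⟨h1, g3, g4⟩
    refine ⟨fun n hn => ?_, g4⟩
    have hS : Setting n d := ⟨(hN n hn).1, g1, h1, (g2 n hn).1⟩
    exact ((good_iff hS).1 ((proved_iff Pool.Agent.N856.QB.hyps hS).1 (g3 n hn).1)).2
  · obtain ⟨c₁, X₁, hc₁, hlow⟩ := SQ_low hM0 h2 k1 hn₀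
    have h3 : Tendsto (fun X : ℕ => c₁ * (X : ℝ)) atTop atTop :=
      tendsto_natCast_atTop_atTop.const_mul_atTop hc₁
    refine tendsto_atTop_mono' _ ?_ h3
    filter_upwards [eventually_ge_atTop X₁] with X hX
    refine (hlow X hX).trans (le_of_eq ?_)
    unfold count SQ
    congr 2
    ext d
    simp only [mem_filter]
    refine and_congr_right fun _ => ?_
    rw [hmem]
    constructor
    · rintro ⟨g1, g2, g3⟩
      exact ⟨⟨g1, g2⟩, fun n hn => ⟨(g3 n hn).1.symm, (g3 n hn).2⟩⟩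
    · rintro ⟨⟨g1, g2⟩, g3⟩
      exact ⟨g1, g2, fun n hn => ⟨(g3 n hn).1.symm, (g3 n hn).2⟩⟩

/-- the curves with a prime `n` -/
theorem prime_sel {n : ℕ} (hp : n.Prime) (h : n % 60 = 23 ∨ n % 60 = 47) :
    Twist n ∧ NoSelmer n := by
  have hT : Twist n := ⟨hp.prime.squarefree, h⟩
  refine ⟨hT, (sel_iff hT).2 fun b c hbc _ _ => ?_⟩
  have h1 : b ∣ n := Dvd.intro _ hbc
  rcases (Nat.dvd_prime hp).1 h1 with h2 | h2
  · exact Or.inl h2
  · right
    rw [h2] at hbc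
    have h3 : n * c = n * 1 := by rw [hbc, mul_one]
    exact Nat.eq_of_mul_eq_mul_left hp.pos h3

end Pool.Agent.N856.QL.Fin
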