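import Pool.Agent.N856.QL.Lim

/-!
# QL (helper856): the Gaussian law of a strongly additive function depending on the classes modulo `M`
# (after the file `Pool/Agent/N160/SN/GLC.lean` of helper160)
-/

set_option autoImplicit false

open scoped Classical

namespace Pool.Agent.N856.QL

open Finset Complex Filter Topology ProbabilityTheory

open Pool.Agent.W262.RK (PS)
open Pool.Agent.N160.SN (gauss_cont ll_cmp)

/-- the mean of a function over the reduced residues -/
noncomputable def mean (M : ℕ) (w : ℕ → ℝ) : ℝ :=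
  (∑ a ∈ (range M).filter fun a => a.Coprime M, w a) / (Nat.totient M : ℝ)

lemma w_bound {M : ℕ} (hM : 0 < M) {w : ℕ → ℝ} (hw : ∀ p, w (p % M) = w p) (p : ℕ) :
    |w p| ≤ ∑ a ∈ range M, |w a| := by
  rw [← hw p]
  exact single_le_sum (f := fun a => |w a|) (fun _ _ => abs_nonneg _)
    (mem_range.2 (Nat.mod_lt _ hM))

lemma mean_mul (M : ℕ) (w : ℕ → ℝ) (c : ℝ) : mean M (fun a => c * w a) = c * mean M w := by
  unfold mean
  rw [← mul_sum, mul_div_assoc]

lemma SQ_nonempty {M : ℕ} {K : Finset ℕ} {n₀ : ℕ} (hn : Squarefree n₀) (hnK : n₀ % M ∈ K)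
    (n : ℕ) : (SQ M K (n + n₀)).Nonempty := by
  refine ⟨n₀, ?_⟩
  have := Nat.pos_of_ne_zero hn.ne_zero
  unfold SQ
  rw [mem_filter, mem_Icc]
  exact ⟨⟨this, by omega⟩, hn, hnK⟩

/-- the law with the normalization at the square root -/
lemma law_sqrt {M : ℕ} (hM : 0 < M) (hM₂ : 2 ∣ M) {K : Finset ℕ} (hK : ∀ a ∈ K, a % 2 = 1)
    {n₀ : ℕ} (hn₀ : Squarefree n₀) (hnK : n₀ % M ∈ K) {w : ℕ → ℝ} (hw : ∀ p, w (p % M) = w p)
    {μ V : ℝ} (hμ : mean M w = μ) (hV : mean M (fun a => w a ^ 2) = V) (hV0 : 0 < V) (x : ℝ) :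
    Tendsto (fun X : ℕ =>
    (((SQ M K X).filter fun n => (∑ p ∈ n.primeFactors, w p -
      μ * Real.log (Real.log (Nat.sqrt X))) /
      (√V * √(Real.log (Real.log (Nat.sqrt X)))) ≤ x).card : ℝ) /
        ((SQ M K X).card : ℝ)) atTop (𝓝 ((gaussianReal 0 1).real (Set.Iic x))) := by
  have hsV : 0 < √V := Real.sqrt_pos.2 hV0
  have hsV2 : √V ^ 2 = V := Real.sq_sqrt hV0.le
  have key : ∀ θ : ℝ, Tendsto (fun X : ℕ => (∑ n ∈ SQ M K X, cexp ((((∑ p ∈ n.primeFactors,
      (θ / √V * w p) - (θ / √V * μ) * Real.log (Real.log (Nat.sqrt X))) /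
        √(Real.log (Real.log (Nat.sqrt X))) : ℝ) : ℂ) * I)) /
        ((SQ M K X).card : ℂ)) atTop (𝓝 ((Real.exp (-(θ ^ 2 / 2)) : ℝ) : ℂ)) := by
    intro θ
    refine sq_cf M hM hM₂ K hK hn₀ hnK (fun p => θ / √V * w p)
      (2 * (|θ / √V| * (∑ a ∈ range M, |w a|)) + 1) ?_ ?_
      (θ / √V * μ) (θ ^ 2) (sq_nonneg _) ?_ ?_
    · have : 0 ≤ |θ / √V| * (∑ a ∈ range M, |w a|) :=
        mul_nonneg (abs_nonneg _) (sum_nonneg fun _ _ => abs_nonneg _)
      linarith
    · intro p
      rw [abs_mul]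
      have h1 := mul_le_mul_of_nonneg_left (w_bound hM hw p) (abs_nonneg (θ / √V))
      linarith
    · intro z hz hMz
      obtain ⟨C, hC0, hC⟩ := mer M hM (fun p => θ / √V * w p)
        (fun p => by simp only [hw]) z hz hMz
      refine ⟨C, hC0, fun y hy => ?_⟩
      have h1 := hC y hy
      have e : (∑ a ∈ (range M).filter fun a => a.Coprime M, θ / √V * w a) /
          (Nat.totient M : ℝ) = θ / √V * μ := by
        rw [← hμ]
        exact mean_mul M w _
      simp only [e] at h1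
      exact h1
    · intro z hz hMz
      obtain ⟨C, hC0, hC⟩ := mer M hM (fun p => (θ / √V * w p) ^ 2)
        (fun p => by simp only [hw]) z hz hMz
      obtain ⟨C', hC'0, hC'⟩ := mer M hM (fun _ => 1) (fun _ => rfl) z hz hMz
      refine ⟨C + θ ^ 2 * C', by positivity, fun y hy => ?_⟩
      have h1 := hC y hy
      have h2 := hC' y hy
      have e : (∑ a ∈ (range M).filter fun a => a.Coprime M, (θ / √V * w a) ^ 2) /
          (Nat.totient M : ℝ) = θ ^ 2 := by
        have e1 := mean_mul M (fun a => w a ^ 2) ((θ / √V) ^ 2)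
        rw [hV] at e1
        have e2 : mean M (fun a => (θ / √V) ^ 2 * w a ^ 2) =
            (∑ a ∈ (range M).filter fun a => a.Coprime M, (θ / √V * w a) ^ 2) /
            (Nat.totient M : ℝ) := by
          unfold mean
          simp only [mul_pow]
        rw [← e2, e1, div_pow, hsV2, div_mul_cancel₀ _ hV0.ne']
      have e' : (∑ a ∈ (range M).filter fun a => a.Coprime M, (1 : ℝ)) /
          (Nat.totient M : ℝ) = 1 := by
        rw [sum_const, nsmul_eq_mul, mul_one]
        have e3 : ((range M).filter fun a => a.Coprime M).card = Nat.totient M := by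
          rw [Nat.totient_eq_card_coprime]
          congr 1
          ext a
          simp only [mem_filter, Nat.coprime_comm]
        rw [e3, div_self]
        exact_mod_cast (Nat.totient_pos.2 hM).ne'
      simp only [e] at h1
      simp only [e', one_mul] at h2
      have e2 : ∑ p ∈ PS z y, (θ / √V * w p) ^ 2 * (1 / (p : ℝ)) -
          θ ^ 2 * ∑ p ∈ PS z y, 1 / (p : ℝ) =
          (∑ p ∈ PS z y, (θ / √V * w p) ^ 2 * (1 / (p : ℝ)) -
            θ ^ 2 * Real.log (Real.log y)) -
          θ ^ 2 * (∑ p ∈ PS z y, 1 / (p : ℝ) - Real.log (Real.log y)) := by ring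
      rw [e2]
      refine (abs_sub _ _).trans (add_le_add h1 ?_)
      rw [abs_mul, abs_of_nonneg (sq_nonneg θ)]
      exact mul_le_mul_of_nonneg_left h2 (sq_nonneg θ)
  have h := Pool.Agent.R421.EK.law_of (ι := Unit) (fun n => SQ M K (n + n₀))
    (SQ_nonempty hn₀ hnK)
    (fun n m _ => (∑ p ∈ m.primeFactors, w p -
      μ * Real.log (Real.log (Nat.sqrt (n + n₀)))) /
      (√V * √(Real.log (Real.log (Nat.sqrt (n + n₀)))))) (fun θ => by
      have h1 := (key (θ ())).comp (tendsto_add_atTop_nat n₀)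
      have e : -(∑ i, θ i ^ 2) / 2 = -((θ ()) ^ 2 / 2) := by
        rw [Fintype.sum_unique]
        have : (default : Unit) = () := rfl
        rw [this]
        ring
      rw [e]
      refine h1.congr fun n => ?_
      simp only [Function.comp_apply]
      congr 1
      refine sum_congr rfl fun m _ => ?_
      congr 3
      rw [Fintype.sum_unique, ← mul_sum]
      have : (default : Unit) = () := rfl
      rw [this]
      rw [mul_comm (√V), ← div_div]
      ring) (fun _ => x)
  rw [Fintype.prod_unique] at h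
  rw [← tendsto_add_atTop_iff_nat n₀]
  refine h.congr fun n => ?_
  congr 2
  refine congrArg _ (filter_congr fun m _ => ?_)
  constructor
  · exact fun h1 => h1 ()
  · exact fun h1 _ => h1

/-- **The Gaussian law of a strongly additive function depending on the classes modulo `M`.** -/
theorem glg {M : ℕ} (hM : 0 < M) (hM₂ : 2 ∣ M) {K : Finset ℕ} (hK : ∀ a ∈ K, a % 2 = 1)
    {n₀ : ℕ} (hn₀ : Squarefree n₀) (hnK : n₀ % M ∈ K) {w : ℕ → ℝ} (hw : ∀ p, w (p % M) = w p)
    {μ V : ℝ} (hμ : mean M w = μ) (hV : mean M (fun a => w a ^ 2) = V) (hV0 : 0 < V) (t : ℝ) :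
    Tendsto (fun X : ℕ =>
      (((SQ M K X).filter fun n => ∑ p ∈ n.primeFactors, w p ≤ μ * Real.log (Real.log X) +
        t * √(V * Real.log (Real.log X))).card : ℝ) / ((SQ M K X).card : ℝ)) atTop
      (𝓝 ((gaussianReal 0 1).real (Set.Iic t))) := by
  have hlaw := law_sqrt hM hM₂ hK hn₀ hnK hw hμ hV hV0
  have hsV : 0 < √V := Real.sqrt_pos.2 hV0
  -- the comparison of the thresholds
  have hthr : ∀ δ : ℝ, 0 < δ → ∀ᶠ X : ℕ in atTop, 0 < Real.log (Real.log (Nat.sqrt X)) ∧
      |μ * Real.log (Real.log X) + t * √(V * Real.log (Real.log X)) -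
        (μ * Real.log (Real.log (Nat.sqrt X)) +
          t * (√V * √(Real.log (Real.log (Nat.sqrt X)))))| ≤
        δ * (√V * √(Real.log (Real.log (Nat.sqrt X)))) := by
    intro δ hδ
    obtain ⟨E, hE⟩ : ∃ E : ℝ, E = (|μ| * 2 + |t| * √V * 2) / (δ * √V) := ⟨_, rfl⟩
    have hE0 : 0 ≤ E := by
      rw [hE]
      positivity
    obtain ⟨X1, hX1⟩ := Pool.Agent.R421.NR.big_ll ((E + 1) ^ 2)
    rw [eventually_atTop]
    refine ⟨(X1 + 9) ^ 2, fun X hX => ?_⟩
    have hs : X1 + 9 ≤ Nat.sqrt X := by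
      rw [Nat.le_sqrt']
      exact hX
    have hX9 : 9 ≤ X := by
      have := Nat.sqrt_le_self X
      omega
    have h1 := hX1 (Nat.sqrt X) (by omega)
    obtain ⟨h2, h3⟩ := ll_cmp X hX9
    generalize Real.log (Real.log (Nat.sqrt X)) = ℓ at h1 h2 h3 ⊢
    generalize Real.log (Real.log (X : ℝ)) = L at h2 h3 ⊢
    have hsl : E + 1 ≤ √ℓ := Real.le_sqrt_of_sq_le h1
    have hsl1 : 1 ≤ √ℓ := by linarith
    have hℓ0 : 0 < ℓ := by nlinarith
    have hsq : √ℓ ^ 2 = ℓ := Real.sq_sqrt hℓ0.le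
    have hsq' : √L ^ 2 = L := Real.sq_sqrt (by linarith)
    have hle : √ℓ ≤ √L := Real.sqrt_le_sqrt h2
    have hdiff : √L - √ℓ ≤ 2 := by
      have h4 : (√L - √ℓ) * (√L + √ℓ) ≤ 2 := by nlinarith
      nlinarith
    refine ⟨hℓ0, ?_⟩
    rw [Real.sqrt_mul hV0.le]
    have e : μ * L + t * (√V * √L) - (μ * ℓ + t * (√V * √ℓ)) =
        μ * (L - ℓ) + t * √V * (√L - √ℓ) := by ring
    rw [e]
    have h5 : |μ * (L - ℓ) + t * √V * (√L - √ℓ)| ≤ |μ| * 2 + |t| * √V * 2 := by
      refine (abs_add_le _ _).trans (add_le_add ?_ ?_)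
      · rw [abs_mul, abs_of_nonneg (a := L - ℓ) (by linarith)]
        exact mul_le_mul_of_nonneg_left (by linarith) (abs_nonneg _)
      · rw [abs_mul, abs_mul, abs_of_pos hsV, abs_of_nonneg (a := √L - √ℓ) (by linarith)]
        exact mul_le_mul_of_nonneg_left hdiff (by positivity)
    refine h5.trans ?_
    have h6 : E * (δ * √V) = |μ| * 2 + |t| * √V * 2 := by
      rw [hE]
      field_simp
    rw [← h6]
    have h7 : 0 < δ * √V := by positivity
    nlinarith
  have hup : ∀ δ : ℝ, 0 < δ → ∀ᶠ X : ℕ in atTop,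
      (((SQ M K X).filter fun n => ∑ p ∈ n.primeFactors, w p ≤ μ * Real.log (Real.log X) +
        t * √(V * Real.log (Real.log X))).card : ℝ) / ((SQ M K X).card : ℝ) ≤
      (((SQ M K X).filter fun n => (∑ p ∈ n.primeFactors, w p -
        μ * Real.log (Real.log (Nat.sqrt X))) /
        (√V * √(Real.log (Real.log (Nat.sqrt X)))) ≤ t + δ).card : ℝ) / ((SQ M K X).card : ℝ) := by
    intro δ hδ
    filter_upwards [hthr δ hδ] with X ⟨h1, h2⟩
    refine div_le_div_of_nonneg_right ?_ (Nat.cast_nonneg _)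
    have h3 : (SQ M K X).filter (fun n => ∑ p ∈ n.primeFactors, w p ≤ μ * Real.log (Real.log X) +
        t * √(V * Real.log (Real.log X))) ⊆ (SQ M K X).filter (fun n => (∑ p ∈ n.primeFactors, w p -
        μ * Real.log (Real.log (Nat.sqrt X))) /
        (√V * √(Real.log (Real.log (Nat.sqrt X)))) ≤ t + δ) := by
      intro n hn
      rw [mem_filter] at hn ⊢
      refine ⟨hn.1, ?_⟩
      have h4 : 0 < √V * √(Real.log (Real.log (Nat.sqrt X))) :=
        mul_pos hsV (Real.sqrt_pos.2 h1)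
      rw [div_le_iff₀ h4]
      have h5 := hn.2
      have h6 := (abs_le.1 h2).2
      linarith
    exact_mod_cast card_le_card h3
  have hlo : ∀ δ : ℝ, 0 < δ → ∀ᶠ X : ℕ in atTop,
      (((SQ M K X).filter fun n => (∑ p ∈ n.primeFactors, w p -
        μ * Real.log (Real.log (Nat.sqrt X))) /
        (√V * √(Real.log (Real.log (Nat.sqrt X)))) ≤ t - δ).card : ℝ) / ((SQ M K X).card : ℝ) ≤
      (((SQ M K X).filter fun n => ∑ p ∈ n.primeFactors, w p ≤ μ * Real.log (Real.log X) +
        t * √(V * Real.log (Real.log X))).card : ℝ) / ((SQ M K X).card : ℝ) := by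
    intro δ hδ
    filter_upwards [hthr δ hδ] with X ⟨h1, h2⟩
    refine div_le_div_of_nonneg_right ?_ (Nat.cast_nonneg _)
    have h3 : (SQ M K X).filter (fun n => (∑ p ∈ n.primeFactors, w p -
        μ * Real.log (Real.log (Nat.sqrt X))) /
        (√V * √(Real.log (Real.log (Nat.sqrt X)))) ≤ t - δ) ⊆ (SQ M K X).filter (fun n =>
        ∑ p ∈ n.primeFactors, w p ≤ μ * Real.log (Real.log X) +
        t * √(V * Real.log (Real.log X))) := by
      intro n hn
      rw [mem_filter] at hn ⊢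
      refine ⟨hn.1, ?_⟩
      have h4 : 0 < √V * √(Real.log (Real.log (Nat.sqrt X))) :=
        mul_pos hsV (Real.sqrt_pos.2 h1)
      have h5 := hn.2
      rw [div_le_iff₀ h4] at h5
      have h6 := (abs_le.1 h2).1
      linarith
    exact_mod_cast card_le_card h3
  rw [tendsto_order]
  constructor
  · intro a ha
    have h1 : ∀ᶠ x in 𝓝 t, a < (gaussianReal 0 1).real (Set.Iic x) :=
      gauss_cont.continuousAt.eventually (lt_mem_nhds ha)
    obtain ⟨r, hr, hball⟩ := Metric.eventually_nhds_iff.1 h1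
    have h2 : a < (gaussianReal 0 1).real (Set.Iic (t - r / 2)) := by
      apply hball
      rw [Real.dist_eq, abs_lt]
      constructor <;> linarith
    filter_upwards [(hlaw (t - r / 2)).eventually (lt_mem_nhds h2), hlo (r / 2) (by positivity)]
      with X h3 h4
    exact h3.trans_le h4
  · intro b hb
    have h1 : ∀ᶠ x in 𝓝 t, (gaussianReal 0 1).real (Set.Iic x) < b :=
      gauss_cont.continuousAt.eventually (gt_mem_nhds hb)
    obtain ⟨r, hr, hball⟩ := Metric.eventually_nhds_iff.1 h1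
    have h2 : (gaussianReal 0 1).real (Set.Iic (t + r / 2)) < b := by
      apply hball
      rw [Real.dist_eq, abs_lt]
      constructor <;> linarith
    filter_upwards [(hlaw (t + r / 2)).eventually (gt_mem_nhds h2), hup (r / 2) (by positivity)]
      with X h3 h4
    exact h4.trans_lt h3

end Pool.Agent.N856.QL
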