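import Pool.Agent.N856.QL.Cfl
import Pool.Agent.N856.QL.Stm
import Pool.Agent.R421.EK.Law

/-!
# QL (helper856): the joint Gaussian law
-/

set_option autoImplicit false

open scoped Classical

namespace Pool.Agent.N856.QL

open Finset Complex Filter Topology ProbabilityTheory MeasureTheory

open Pool.Agent.R421.EK (lw lw_prob lw_charFun)

variable {J : Type} [Fintype J]

/-- the vector of the limit -/
noncomputable def Zm (g : Option J → ℝ) : EuclideanSpace ℝ J := WithLp.toLp 2 (Zv g)

omit [Fintype J] in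
lemma zm_cont : Continuous (Zm (J := J)) := by
  unfold Zm Zv
  fun_prop

instance : IsProbabilityMeasure (PG J) := by
  unfold PG
  infer_instance

lemma zm_prob : IsProbabilityMeasure ((PG J).map Zm) :=
  Measure.isProbabilityMeasure_map zm_cont.measurable.aemeasurable

/-- the characteristic function of the limit -/
lemma zm_charFun (θ : EuclideanSpace ℝ J) : charFun ((PG J).map Zm) θ =
    ((Real.exp (-(((∑ j, θ j) ^ 2 / 4 + (∑ j, θ j ^ 2) / 4) / 2)) : ℝ) : ℂ) := by
  obtain ⟨η, hη⟩ : ∃ η : EuclideanSpace ℝ (Option J), η = WithLp.toLp 2 (fun o =>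
    Option.elim o ((∑ j, θ j) / 2) fun j => θ j / 2) := ⟨_, rfl⟩
  have h1 := charFun_stdGaussian (E := EuclideanSpace ℝ (Option J)) η
  rw [← map_pi_eq_stdGaussian, charFun_apply, integral_map (by fun_prop) (by fun_prop)] at h1
  rw [charFun_apply, integral_map zm_cont.measurable.aemeasurable (by fun_prop)]
  have h2 : ∀ g : Option J → ℝ, inner ℝ (Zm g) θ = inner ℝ (WithLp.toLp 2 g) η := by
    intro g
    rw [PiLp.inner_apply, PiLp.inner_apply, Fintype.sum_option, hη]
    simp only [Zm, Zv, Option.elim]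
    simp only [RCLike.inner_apply, conj_trivial]
    rw [sum_div, sum_mul, ← sum_add_distrib]
    refine sum_congr rfl fun j _ => ?_
    ring
  simp only [h2]
  refine h1.trans ?_
  rw [Complex.ofReal_exp]
  congr 1
  have h3 : ‖η‖ ^ 2 = (∑ j, θ j) ^ 2 / 4 + (∑ j, θ j ^ 2) / 4 := by
    rw [EuclideanSpace.real_norm_sq_eq, Fintype.sum_option, hη]
    simp only [Option.elim]
    rw [div_pow, sum_div]
    congr 1
    · norm_num
    · refine sum_congr rfl fun j _ => ?_
      rw [div_pow]
      norm_num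
  rw [← h3]
  push_cast
  ring

/-- the measure of a set for the distribution of a vector -/
lemma lw_apply {Ω : Type} (s : Finset Ω) (V : Ω → J → ℝ) (A : Set (EuclideanSpace ℝ J)) :
    (lw s V A).toReal =
      ((s.filter (fun t => (WithLp.toLp 2 (V t) : EuclideanSpace ℝ J) ∈ A)).card : ℝ) / s.card := by
  unfold lw
  rw [Measure.smul_apply, Measure.finsetSum_apply]
  have h1 : ∀ t ∈ s, Measure.dirac (WithLp.toLp 2 (V t) : EuclideanSpace ℝ J) A =
      if (WithLp.toLp 2 (V t) : EuclideanSpace ℝ J) ∈ A then 1 else 0 := by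
    intro t _
    rw [Measure.dirac_apply, Set.indicator_apply]
    rfl
  rw [sum_congr rfl h1, sum_boole, smul_eq_mul, ENNReal.toReal_mul, ENNReal.toReal_inv,
    ENNReal.toReal_natCast, ENNReal.toReal_natCast, div_eq_inv_mul]

/-- **The joint law.** -/
theorem joint {M : ℕ} (hM : 0 < M) (hM₂ : 2 ∣ M) {K : Finset ℕ} (hK : ∀ a ∈ K, a % 2 = 1)
    {n₀ : ℕ} (hn₀ : Squarefree n₀) (hnK : n₀ % M ∈ K) {w : J → ℕ → ℝ}
    (hw : ∀ j p, w j (p % M) = w j p) {μ : J → ℝ} (hμ : ∀ j, mean M (w j) = μ j)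
    (hV : ∀ θ : J → ℝ, mean M (fun a => (∑ j, θ j * w j a) ^ 2) =
      (∑ j, θ j) ^ 2 / 4 + (∑ j, θ j ^ 2) / 4) (b : J → ℝ)
    (A : Set (J → ℝ)) (hAm : MeasurableSet A) (hA : PG J {g | Zv g ∈ frontier A} = 0) :
    Tendsto (fun X : ℕ => (((SQ M K X).filter fun n =>
      (fun j => (∑ p ∈ n.primeFactors, w j p + b j - μ j * Real.log (Real.log X)) /
        √(Real.log (Real.log X))) ∈ A).card : ℝ) / ((SQ M K X).card : ℝ)) atTop
      (𝓝 ((PG J).real {g | Zv g ∈ A})) := by
  have hcf : ∀ θ : EuclideanSpace ℝ J, Tendsto (fun X : ℕ => (∑ n ∈ SQ M K X,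
      cexp (((∑ j, θ j * ((∑ p ∈ n.primeFactors, w j p + b j - μ j * Real.log (Real.log X)) /
        √(Real.log (Real.log X))) : ℝ) : ℂ) * I)) / ((SQ M K X).card : ℂ)) atTop
      (𝓝 (charFun ((PG J).map Zm) θ)) := by
    intro θ
    rw [zm_charFun]
    have e : ∀ (X n : ℕ), ∑ j, θ j * ((∑ p ∈ n.primeFactors, w j p + b j -
        μ j * Real.log (Real.log X)) / √(Real.log (Real.log X))) =
        (∑ p ∈ n.primeFactors, (∑ j, θ j * w j p) + (∑ j, θ j * b j) -
          (∑ j, θ j * μ j) * Real.log (Real.log X)) / √(Real.log (Real.log X)) := by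
      intro X n
      rw [sum_comm, sum_mul, ← sum_add_distrib, ← sum_sub_distrib, sum_div]
      refine sum_congr rfl fun j _ => ?_
      rw [← mul_sum]
      ring
    simp only [e]
    by_cases hθ : θ = 0
    · subst hθ
      have e2 : ∀ᶠ X : ℕ in atTop, (1 : ℂ) = (∑ n ∈ SQ M K X, cexp ((((∑ p ∈ n.primeFactors,
          (∑ j, (0 : EuclideanSpace ℝ J) j * w j p) + (∑ j, (0 : EuclideanSpace ℝ J) j * b j) -
          (∑ j, (0 : EuclideanSpace ℝ J) j * μ j) * Real.log (Real.log X)) /
            √(Real.log (Real.log X)) : ℝ) : ℂ) * I)) / ((SQ M K X).card : ℂ) := by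
        filter_upwards [eventually_ge_atTop n₀] with X hX
        have hne : (SQ M K X).Nonempty := by
          have := SQ_nonempty (M := M) (K := K) hn₀ hnK (X - n₀)
          rwa [Nat.sub_add_cancel hX] at this
        have hc : ((SQ M K X).card : ℂ) ≠ 0 := by exact_mod_cast hne.card_pos.ne'
        simp [hc]
      have e3 : ((Real.exp (-(((∑ j, (0 : EuclideanSpace ℝ J) j) ^ 2 / 4 +
          (∑ j, (0 : EuclideanSpace ℝ J) j ^ 2) / 4) / 2)) : ℝ) : ℂ) = 1 := by
        simp
      rw [e3]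
      exact tendsto_const_nhds.congr' e2
    · have hpos : 0 < (∑ j, θ j) ^ 2 / 4 + (∑ j, θ j ^ 2) / 4 := by
        have h1 : 0 < ∑ j, θ j ^ 2 := by
          rw [← EuclideanSpace.real_norm_sq_eq]
          have := norm_pos_iff.2 hθ
          positivity
        have := sq_nonneg (∑ j, θ j)
        linarith
      refine cfl hM hM₂ hK hn₀ hnK (w := fun p => ∑ j, θ j * w j p) ?_ ?_ (hV fun j => θ j)
        hpos (∑ j, θ j * b j)
      · intro p
        simp only [hw]
      · unfold mean
        rw [sum_comm, sum_div]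
        refine sum_congr rfl fun j _ => ?_
        rw [← hμ j, ← mul_sum, mul_div_assoc]
        rfl
  set Vf : ℕ → ℕ → J → ℝ := fun k n j => (∑ p ∈ n.primeFactors, w j p + b j -
    μ j * Real.log (Real.log ((k + n₀ : ℕ) : ℝ))) / √(Real.log (Real.log ((k + n₀ : ℕ) : ℝ)))
    with hVf
  have hne : ∀ k, (SQ M K (k + n₀)).Nonempty := SQ_nonempty hn₀ hnK
  have h1 : ∀ θ : EuclideanSpace ℝ J, Tendsto (fun k => charFun
      ((⟨lw (SQ M K (k + n₀)) (Vf k), lw_prob _ (hne k) (Vf k)⟩ :
        ProbabilityMeasure (EuclideanSpace ℝ J)) : Measure (EuclideanSpace ℝ J)) θ) atTop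
      (𝓝 (charFun ((⟨(PG J).map Zm, zm_prob⟩ :
        ProbabilityMeasure (EuclideanSpace ℝ J)) : Measure (EuclideanSpace ℝ J)) θ)) := by
    intro θ
    simp only [ProbabilityMeasure.coe_mk]
    refine ((hcf θ).comp (tendsto_add_atTop_nat n₀)).congr fun k => ?_
    rw [lw_charFun]
    rfl
  have h2 := ProbabilityMeasure.tendsto_of_tendsto_charFun h1
  obtain ⟨A', hA'⟩ : ∃ A' : Set (EuclideanSpace ℝ J), A' = (EuclideanSpace.equiv J ℝ) ⁻¹' A :=
    ⟨_, rfl⟩
  have hA'm : MeasurableSet A' := by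
    rw [hA']
    exact (EuclideanSpace.equiv J ℝ).continuous.measurable hAm
  have hfr : ((⟨(PG J).map Zm, zm_prob⟩ : ProbabilityMeasure (EuclideanSpace ℝ J)) :
      Measure (EuclideanSpace ℝ J)) (frontier A') = 0 := by
    have e : frontier A' = (EuclideanSpace.equiv J ℝ) ⁻¹' (frontier A) := by
      rw [hA']
      exact ((EuclideanSpace.equiv J ℝ).toHomeomorph.preimage_frontier A).symm
    show ((PG J).map Zm) (frontier A') = 0
    rw [Measure.map_apply zm_cont.measurable isClosed_frontier.measurableSet, e]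
    exact hA
  have h3 := ProbabilityMeasure.tendsto_measure_of_null_frontier_of_tendsto' h2 hfr
  have h4 := (ENNReal.tendsto_toReal (measure_ne_top _ _)).comp h3
  simp only [ProbabilityMeasure.coe_mk] at h4
  have h5 : (((PG J).map Zm) A').toReal = (PG J).real {g | Zv g ∈ A} := by
    rw [Measure.map_apply zm_cont.measurable hA'm, hA']
    rfl
  rw [h5] at h4
  rw [← tendsto_add_atTop_iff_nat n₀]
  refine h4.congr fun k => ?_
  refine (lw_apply _ _ _).trans ?_
  rw [hA']
  rfl

end Pool.Agent.N856.QL
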