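import Pool.Agent.N856.QL.Sq
import Pool.Agent.N160.SN.GLC

/-!
# QL (helper856): the limit of the characteristic function (after helper160)
-/

set_option autoImplicit false

open scoped Classical

namespace Pool.Agent.N856.QL

open Finset Complex Filter Topology

open Pool.Agent.W262.RK (PS)
open Pool.Agent.R421.NR (yT yT_pow lt_yT loglog_yT yT_large big_ll)
open Pool.Agent.R421.EK (mem_PS' exp_I_lip)
open Pool.Agent.N160.SN (card_sq_mul Gf Af Gf_le cls_sum card_large pt_cmp)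

lemma SQ_low {M n₀ : ℕ} (hM : 0 < M) (hM2 : 2 ∣ M) (hn : Squarefree n₀) {K : Finset ℕ}
    (hnK : n₀ % M ∈ K) : ∃ (c : ℝ) (X₀ : ℕ), 0 < c ∧ ∀ X : ℕ, X₀ ≤ X →
      c * X ≤ ((SQ M K X).card : ℝ) := by
  obtain ⟨c₁, X₁, hc₁, hlow⟩ := Pool.Agent.N916.AM.low hM hM2 hn
  refine ⟨c₁, X₁, hc₁, fun X hX => (hlow X hX).trans ?_⟩
  refine Nat.cast_le.2 (card_le_card fun n hn => ?_)
  unfold SQ
  rw [mem_filter] at hn ⊢
  refine ⟨hn.1, hn.2.1, ?_⟩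
  rw [hn.2.2]
  exact hnK

/-- the limit of the characteristic function -/
theorem sq_cf (M₀ : ℕ) (hM₀ : 0 < M₀) (hM₂ : 2 ∣ M₀) (K : Finset ℕ) (hK : ∀ a ∈ K, a % 2 = 1)
    {n₀ : ℕ} (hn₀ : Squarefree n₀) (hnK : n₀ % M₀ ∈ K) (w : ℕ → ℝ) (c : ℝ) (hc : 1 ≤ c) (hwc : ∀ p, 2 * |w p| ≤ c) (μ v : ℝ) (hv : 0 ≤ v)
    (hw1 : ∀ z : ℕ, 10 ≤ z → M₀ ≤ z → ∃ C : ℝ, 0 ≤ C ∧ ∀ y : ℕ, z < y →
      |∑ p ∈ PS z y, w p * (1 / (p : ℝ)) - μ * Real.log (Real.log y)| ≤ C)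
    (hw2 : ∀ z : ℕ, 10 ≤ z → M₀ ≤ z → ∃ C : ℝ, 0 ≤ C ∧ ∀ y : ℕ, z < y →
      |∑ p ∈ PS z y, w p ^ 2 * (1 / (p : ℝ)) - v * ∑ p ∈ PS z y, 1 / (p : ℝ)| ≤ C) :
    Tendsto (fun X : ℕ => (∑ n ∈ SQ M₀ K X, cexp ((((∑ p ∈ n.primeFactors, w p -
      μ * Real.log (Real.log (Nat.sqrt X))) / √(Real.log (Real.log (Nat.sqrt X))) : ℝ) : ℂ) * I)) /
        ((SQ M₀ K X).card : ℂ)) atTop (𝓝 ((Real.exp (-(v / 2)) : ℝ) : ℂ)) := by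
  rw [Metric.tendsto_atTop]
  intro ε hε
  obtain ⟨c₁, X1, hc₁, hX1⟩ := SQ_low hM₀ hM₂ hn₀ hnK
  obtain ⟨z, X0, hz, hzM, hX0⟩ := sq_sum M₀ hM₀ hM₂ K hK w c hc hwc v hv hw2 (c₁ * ε / 4)
    (by positivity)
  obtain ⟨C, hC0, hC⟩ := hw1 z hz hzM
  obtain ⟨E, hE⟩ : ∃ E : ℝ, E = c * (z + 9) + C + 3 * |μ| := ⟨_, rfl⟩
  have hE0 : 0 ≤ E := by
    rw [hE]
    positivity
  obtain ⟨X2, hX2⟩ := big_ll ((4 * E / ε + 1) ^ 2)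
  refine ⟨X0 + X1 + (X2 + (z + 1) ^ 4 + 81) ^ 2, fun X hX => ?_⟩
  have hs : X2 + (z + 1) ^ 4 + 81 ≤ Nat.sqrt X := by
    rw [Nat.le_sqrt']
    omega
  have hX81 : 81 ^ 2 ≤ X := by
    rw [← Nat.le_sqrt']
    omega
  have hXpos : (0 : ℝ) < X := by
    have : 0 < X := by omega
    exact_mod_cast this
  have h1 := hX0 X (by omega)
  have h2 := hX1 X (by omega)
  have h3 := hX2 (Nat.sqrt X) (by omega)
  have hXz : z < yT (Nat.sqrt X) := yT_large z (by omega)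
  obtain ⟨ℓ, hℓ⟩ : ∃ ℓ, ℓ = Real.log (Real.log (Nat.sqrt X)) := ⟨_, rfl⟩
  rw [← hℓ] at h3 ⊢
  have h4 : 4 * E / ε + 1 ≤ √ℓ := Real.le_sqrt_of_sq_le h3
  have h40 : 0 ≤ 4 * E / ε := by positivity
  have hsl : 0 < √ℓ := by linarith
  have h5 : E / √ℓ ≤ ε / 4 := by
    rw [div_le_iff₀ hsl]
    have h6 : 4 * E / ε ≤ √ℓ := by linarith
    rw [div_le_iff₀ hε] at h6
    linarith
  have hcard : (0 : ℝ) < (SQ M₀ K X).card := lt_of_lt_of_le (by positivity) h2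
  have hcardC : ((SQ M₀ K X).card : ℂ) ≠ 0 := by exact_mod_cast hcard.ne'
  obtain ⟨Vf, hVf⟩ : ∃ Vf : ℕ → ℝ, Vf = fun n => (∑ p ∈ n.primeFactors, w p - μ * ℓ) / √ℓ :=
    ⟨_, rfl⟩
  have e1 : (∑ n ∈ SQ M₀ K X, cexp ((((∑ p ∈ n.primeFactors, w p - μ * ℓ) / √ℓ : ℝ) : ℂ) * I)) /
        ((SQ M₀ K X).card : ℂ) - ((Real.exp (-(v / 2)) : ℝ) : ℂ) =
      (∑ n ∈ SQ M₀ K X, Gf w v z (Nat.sqrt X) n + ∑ n ∈ SQ M₀ K X, (cexp ((Vf n : ℂ) * I) -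
        cexp ((Af w z (Nat.sqrt X) n : ℂ) * I))) / ((SQ M₀ K X).card : ℂ) := by
    rw [← sum_add_distrib]
    have e2 : ∀ n ∈ SQ M₀ K X, Gf w v z (Nat.sqrt X) n + (cexp ((Vf n : ℂ) * I) -
        cexp ((Af w z (Nat.sqrt X) n : ℂ) * I)) =
        cexp ((((∑ p ∈ n.primeFactors, w p - μ * ℓ) / √ℓ : ℝ) : ℂ) * I) -
          ((Real.exp (-(v / 2)) : ℝ) : ℂ) := by
      intro n _
      rw [hVf]
      unfold Gf
      ring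
    rw [sum_congr rfl e2, sum_sub_distrib, sum_const, nsmul_eq_mul, sub_div,
      mul_div_cancel_left₀ _ hcardC]
  rw [dist_eq_norm, e1, norm_div, Complex.norm_natCast, div_lt_iff₀ hcard]
  have h6 : ‖∑ n ∈ SQ M₀ K X, (cexp ((Vf n : ℂ) * I) - cexp ((Af w z (Nat.sqrt X) n : ℂ) * I))‖ ≤
      (SQ M₀ K X).card * (ε / 4) := by
    refine (norm_sum_le _ _).trans ?_
    rw [← nsmul_eq_mul, ← sum_const]
    refine sum_le_sum fun n hn => ?_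
    refine (exp_I_lip _ _).trans (le_trans ?_ h5)
    have hn' := hn
    unfold SQ at hn'
    rw [mem_filter, mem_Icc] at hn'
    have h7 := pt_cmp w c hc hwc μ C z hC X n hn'.1.1 hn'.1.2 hX81 hXz
    rw [← hℓ, ← hE] at h7
    have e2 : Vf n - Af w z (Nat.sqrt X) n = ((∑ p ∈ n.primeFactors, w p - μ * ℓ) -
      ∑ p ∈ PS z (yT (Nat.sqrt X)), w p * ((if p ∣ n then 1 else 0) - 1 / (p : ℝ))) / √ℓ := by
      rw [hVf]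
      unfold Af
      rw [← hℓ, sub_div]
    rw [e2, abs_div, abs_of_pos hsl]
    exact div_le_div_of_nonneg_right h7 hsl.le
  calc ‖_ + _‖ ≤ c₁ * ε / 4 * X + (SQ M₀ K X).card * (ε / 4) := (norm_add_le _ _).trans (add_le_add h1 h6)
    _ < ε * (SQ M₀ K X).card := by nlinarith

end Pool.Agent.N856.QL
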