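import Pool.Agent.N856.QL.Fin

/-!
# QL (helper856): the main theorems
-/

set_option autoImplicit false

open scoped Classical

namespace Pool.Agent.N856.QL.Fin

open Finset Filter Topology MeasureTheory ProbabilityTheory
open Pool.Agent.N856.QB.Res (E Twist Disc Setting inert dim NoSelmer Proved eta count proved_iff
  good_iff sel_iff eta_bounds TwoPart IsQuad)

/-- `#Ш(E_{-n}/ℚ(√d))[2^∞] = 4 ^ (expo n d)` -/
def expo (n d : ℕ) : ℕ := dim n d - 2

/-- the 2-part of the conjecture for `E_{-n}` over `ℚ(√d)` -/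
def Holds (n d : ℕ) : Prop := 2 ≤ dim n d ∧
  ∀ (K : Type) [Field K] [NumberField K], IsQuad d K → TwoPart K (E n) (expo n d)

lemma expo_cast {n d : ℕ} (h : 2 ≤ dim n d) : (expo n d : ℝ) = (dim n d : ℝ) - 2 := by
  unfold expo
  rw [Nat.cast_sub h]
  norm_num

lemma hd_congr {P : ℕ → Prop} {Q Q' : ℕ → ℕ → Prop} {δ : ℝ} (h : HasDens P Q δ)
    (hQ : ∀ X n, P n → (Q X n ↔ Q' X n)) : HasDens P Q' δ := by
  unfold HasDens at h ⊢
  refine h.congr fun X => ?_
  congr 2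
  unfold count
  congr 1
  ext n
  simp only [mem_filter]
  exact and_congr_right fun _ => and_congr_right fun hn => hQ X n hn

/-- **Fixed fields.** -/
theorem mainA :
    (∀ 𝒟 : Finset ℕ, 𝒟.Nonempty → (∀ d ∈ 𝒟, Disc d ∧ 1 < d) →
      (∀ A : Set (𝒟 → ℝ), MeasurableSet A → Normal 𝒟 (frontier A) = 0 →
        HasDens (fun n => Twist n ∧ ∀ d ∈ 𝒟, n.Coprime d)
          (fun X n => (∀ d ∈ 𝒟, Holds n d) ∧
            (fun d : 𝒟 => ((expo n d : ℝ) - LL X / 2) / √(LL X)) ∈ A)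
          (eta ^ (𝒟.card + 1) * (Normal 𝒟).real A)) ∧
      (∀ σ : _root_.Fin 𝒟.card ≃ 𝒟,
        HasDens (fun n => Twist n ∧ ∀ d ∈ 𝒟, n.Coprime d)
          (fun _ n => (∀ d ∈ 𝒟, Holds n d) ∧ StrictMono fun i => expo n (σ i))
          (eta ^ (𝒟.card + 1) / (Nat.factorial 𝒟.card : ℝ)))) ∧
    0.2887 < eta ∧ eta < 0.2889 := by
  refine ⟨fun 𝒟 hne hD => ⟨fun A hAm hA => ?_, fun σ => ?_⟩, eta_bounds⟩
  · refine hd_congr (partA 𝒟 hne hD A hAm hA) fun X n _ => ?_
    refine and_congr_right fun h => ?_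
    have e : (fun d : 𝒟 => ((dim n d : ℝ) - 2 - LL X / 2) / √(LL X)) =
        fun d : 𝒟 => ((expo n d : ℝ) - LL X / 2) / √(LL X) := by
      funext d
      rw [expo_cast (h d d.2).1]
    rw [e]
  · refine hd_congr (partO 𝒟 hne hD σ) fun X n _ => ?_
    refine and_congr_right fun h => ?_
    have hd : ∀ i, 2 ≤ dim n (σ i) := fun i => (h (σ i) (σ i).2).1
    constructor
    · intro h1 i k hik
      have h2 := h1 hik
      have h3 := hd i
      have h4 := hd k
      simp only [expo] at h2 ⊢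
      omega
    · intro h1 i k hik
      have h2 := h1 hik
      have h3 := hd i
      have h4 := hd k
      simp only [expo] at h2 ⊢
      omega

/-- **Fixed curves.** -/
theorem mainB :
    (∀ n : ℕ, n.Prime → (n % 60 = 23 ∨ n % 60 = 47) → Twist n ∧ NoSelmer n) ∧
    (∀ 𝒩 : Finset ℕ, 𝒩.Nonempty → (∀ n ∈ 𝒩, Twist n ∧ NoSelmer n) → ∀ ε : ℕ → ℤ,
      (∀ n ∈ 𝒩, ∀ p ∈ n.primeFactors, ε p = 1 ∨ ε p = -1) → ∀ t : ℝ,
      HasDens
        (fun d => Disc d ∧ ∀ n ∈ 𝒩, n.Coprime d ∧ ∀ p ∈ n.primeFactors, jacobiSym d p = ε p)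
        (fun X d => 1 < d ∧ (∀ n ∈ 𝒩, Holds n d ∧
          expo n d + 2 = d.primeFactors.card + (n.primeFactors.filter fun p => ε p = -1).card) ∧
          (d.primeFactors.card : ℝ) ≤ LL X + t * √(LL X))
        (eta ^ 𝒩.card * (gaussianReal 0 1).real (Set.Iic t))) ∧
    0.2887 < eta ∧ eta < 0.2889 := by
  refine ⟨fun n hp h => prime_sel hp h, fun 𝒩 hne hN ε hε t => ?_, eta_bounds⟩
  refine hd_congr (partB' 𝒩 hne hN ε hε t) fun X d _ => ?_
  refine and_congr_right fun _ => and_congr_left fun _ => ?_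
  refine forall_congr' fun n => forall_congr' fun _ => ?_
  refine and_congr_right fun h => ?_
  have h1 := h.1
  unfold expo
  omega

end Pool.Agent.N856.QL.Fin
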