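import Pool.Agent.N160.SN.Main
import Pool.Agent.N916.AM.Low
import Pool.Agent.Y405.CQ.MER

/-!
# QL (helper856): the Gaussian law of a strongly additive function depending on the classes modulo `M`
# (after the files `Pool/Agent/N160/SN` of helper160)
-/

set_option autoImplicit false

open scoped Classical

namespace Pool.Agent.N856.QL

open Finset Complex Filter Topology
open Pool.Agent.N160.SN (card_sq_mul Gf Af Gf_le cls_sum card_large)
open Pool.Agent.W262.RK (PS)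

/-- the squarefree integers of the classes -/
noncomputable def SQ (M : ℕ) (K : Finset ℕ) (X : ℕ) : Finset ℕ :=
  (Icc 1 X).filter fun n => Squarefree n ∧ n % M ∈ K

/-- no square of a prime at most `D` -/
noncomputable def TD (M : ℕ) (K : Finset ℕ) (D X : ℕ) : Finset ℕ :=
  (Icc 1 X).filter fun n => n % M ∈ K ∧ ∀ p : ℕ, p.Prime → p ≤ D → ¬ p ^ 2 ∣ n

lemma SQ_sub_TD (M : ℕ) (K : Finset ℕ) (D X : ℕ) : SQ M K X ⊆ TD M K D X := by
  intro n hn
  unfold SQ at hn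
  rw [mem_filter] at hn
  unfold TD
  rw [mem_filter]
  refine ⟨hn.1, hn.2.2, fun p hp _ hd => ?_⟩
  rw [pow_two] at hd
  exact Nat.squarefree_iff_prime_squarefree.1 hn.2.1 p hp hd

lemma card_TD_sdiff (M : ℕ) (K : Finset ℕ) (D X : ℕ) (hD : 1 ≤ D) :
    (((TD M K D X) \ SQ M K X).card : ℝ) ≤ X / D := by
  have hsub : (TD M K D X) \ SQ M K X ⊆ (Ioc D X).biUnion fun k => (Icc 1 X).filter fun n => k ^ 2 ∣ n := by
    intro n hn
    rw [Finset.mem_sdiff] at hn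
    obtain ⟨h1, h2⟩ := hn
    unfold TD at h1
    unfold SQ at h2
    rw [mem_filter] at h1 h2
    obtain ⟨h3, h4, h5⟩ := h1
    have h6 : ¬ Squarefree n := fun h => h2 ⟨h3, h, h4⟩
    rw [Nat.squarefree_iff_prime_squarefree] at h6
    push Not at h6
    obtain ⟨p, hp, hd⟩ := h6
    rw [← pow_two] at hd
    have h7 : D < p := by
      by_contra hcon
      exact h5 p hp (by omega) hd
    rw [mem_Icc] at h3
    have h8 : p ≤ X := (Nat.le_self_pow two_ne_zero p).trans ((Nat.le_of_dvd (by omega) hd).trans h3.2)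
    rw [mem_biUnion]
    exact ⟨p, mem_Ioc.2 ⟨h7, h8⟩, mem_filter.2 ⟨mem_Icc.2 h3, hd⟩⟩
  have h1 : (((TD M K D X) \ SQ M K X).card : ℝ) ≤
      ∑ k ∈ Ioc D X, (((Icc 1 X).filter fun n => k ^ 2 ∣ n).card : ℝ) := by
    exact_mod_cast (card_le_card hsub).trans card_biUnion_le
  refine h1.trans ((sum_le_sum fun k _ => card_sq_mul X k).trans ?_)
  rw [← mul_sum]
  rcases le_total D X with hDX | hDX
  · have h2 := sum_Ioc_inv_sq_le_sub (α := ℝ) (k := D) (n := X) (by omega) hDX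
    have h3 : (0 : ℝ) ≤ (X : ℝ)⁻¹ := by positivity
    rw [div_eq_mul_inv]
    exact mul_le_mul_of_nonneg_left (by linarith) (Nat.cast_nonneg X)
  · rw [Ioc_eq_empty_of_le hDX, sum_empty, mul_zero]
    positivity

/-- sums of a function modulo `M` over the primes -/
theorem mer (M : ℕ) (hM : 1 ≤ M) (h : ℕ → ℝ) (hm : ∀ p, h (p % M) = h p) (z : ℕ) (hz : 10 ≤ z)
    (hMz : M ≤ z) :
    ∃ C : ℝ, 0 ≤ C ∧ ∀ y : ℕ, z < y → |∑ p ∈ PS z y, h p * (1 / (p : ℝ)) -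
      (∑ a ∈ (range M).filter fun a => a.Coprime M, h a) / (Nat.totient M : ℝ) *
        Real.log (Real.log y)| ≤ C := by
  obtain ⟨Q, hQ⟩ : ∃ Q : Finset ℕ, Q = (range M).filter fun a => a.Coprime M := ⟨_, rfl⟩
  rw [← hQ]
  have hM : ∀ a : ℕ, ∃ C : ℝ, a ∈ Q → (0 ≤ C ∧ ∀ x : ℕ, 3 ≤ x →
      |∑ p ∈ (Icc 1 x).filter (fun p => p.Prime ∧ p % M = a), (1 : ℝ) / p -
        1 / (Nat.totient M : ℝ) * Real.log (Real.log x)| ≤ C) := by
    intro a
    by_cases ha : a ∈ Q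
    · have h12 : a < M ∧ a.Coprime M := by
        rw [hQ, mem_filter, mem_range] at ha
        exact ha
      obtain ⟨C, h0, hC⟩ := Pool.Agent.Y405.CQ.mertens_ap M hM a h12.1 h12.2
      exact ⟨C, fun _ => ⟨h0, hC⟩⟩
    · exact ⟨0, fun h' => absurd h' ha⟩
  choose C hC using hM
  obtain ⟨S, hS⟩ : ∃ S : ℕ → ℕ → ℝ, S = fun (a x : ℕ) =>
    ∑ p ∈ (Icc 1 x).filter (fun p : ℕ => p.Prime ∧ p % M = a), (1 : ℝ) / p := ⟨_, rfl⟩
  refine ⟨∑ a ∈ Q, |h a| * (C a + |S a z|), sum_nonneg fun a ha =>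
    mul_nonneg (abs_nonneg _) (add_nonneg (hC a ha).1 (abs_nonneg _)), fun y hy => ?_⟩
  have hmap : ∀ p ∈ PS z y, p % M ∈ Q := by
    intro p hp
    unfold PS at hp
    rw [mem_filter, mem_Ioc] at hp
    obtain ⟨⟨h1, h2⟩, h3⟩ := hp
    rw [hQ, mem_filter, mem_range]
    refine ⟨Nat.mod_lt _ (by omega), ?_⟩
    have h4 : p.Coprime M := by
      rw [h3.coprime_iff_not_dvd]
      intro hd
      have := Nat.le_of_dvd (by omega) hd
      omega
    rw [Nat.coprime_iff_gcd_eq_one, ← h4, Nat.gcd_comm p M, Nat.gcd_rec M p]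
  have e1 : ∑ p ∈ PS z y, h p * (1 / (p : ℝ)) = ∑ a ∈ Q, h a * (S a y - S a z) := by
    rw [← sum_fiberwise_of_maps_to hmap]
    refine sum_congr rfl fun a _ => ?_
    have e2 : ∑ p ∈ (PS z y).filter (fun p => p % M = a), h p * (1 / (p : ℝ)) =
        h a * ∑ p ∈ (PS z y).filter (fun p => p % M = a), (1 / (p : ℝ)) := by
      rw [mul_sum]
      refine sum_congr rfl fun p hp => ?_
      rw [← hm p, (mem_filter.1 hp).2]
    rw [e2]
    congr 1
    rw [eq_sub_iff_add_eq, hS]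
    simp only
    rw [← sum_union]
    · congr 1
      ext p
      unfold PS
      simp only [mem_union, mem_filter, mem_Ioc, mem_Icc]
      constructor
      · rintro (⟨⟨⟨a1, a2⟩, a3⟩, a4⟩ | ⟨⟨a1, a2⟩, a3, a4⟩)
        · exact ⟨⟨by omega, a2⟩, a3, a4⟩
        · exact ⟨⟨a1, by omega⟩, a3, a4⟩
      · rintro ⟨⟨a1, a2⟩, a3, a4⟩
        by_cases hp : p ≤ z
        · exact Or.inr ⟨⟨a1, hp⟩, a3, a4⟩
        · exact Or.inl ⟨⟨⟨by omega, a2⟩, a3⟩, a4⟩
    · rw [disjoint_left]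
      intro p h1 h2
      unfold PS at h1
      rw [mem_filter, mem_filter, mem_Ioc] at h1
      rw [mem_filter, mem_Icc] at h2
      omega
  have e3 : (∑ a ∈ Q, h a) / (Nat.totient M : ℝ) * Real.log (Real.log y) =
      ∑ a ∈ Q, h a * (1 / (Nat.totient M : ℝ) * Real.log (Real.log y)) := by
    rw [← sum_mul]
    ring
  rw [e1, e3, ← sum_sub_distrib]
  refine (abs_sum_le_sum_abs _ _).trans (sum_le_sum fun a ha => ?_)
  have e4 : h a * (S a y - S a z) - h a * (1 / (Nat.totient M : ℝ) * Real.log (Real.log y)) =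
      h a * ((S a y - 1 / (Nat.totient M : ℝ) * Real.log (Real.log y)) - S a z) := by ring
  rw [e4, abs_mul]
  refine mul_le_mul_of_nonneg_left ?_ (abs_nonneg _)
  refine (abs_sub _ _).trans (add_le_add ?_ le_rfl)
  have h1 := (hC a ha).2 y (by omega)
  rw [hS]
  exact h1

/-- the sum over the squarefree integers -/
lemma sq_sum (M₀ : ℕ) (hM₀ : 0 < M₀) (hM₂ : 2 ∣ M₀) (K : Finset ℕ) (hK : ∀ a ∈ K, a % 2 = 1)
    (w : ℕ → ℝ) (c : ℝ) (hc : 1 ≤ c) (hwc : ∀ p, 2 * |w p| ≤ c) (v : ℝ) (hv : 0 ≤ v)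
    (hw2 : ∀ z : ℕ, 10 ≤ z → M₀ ≤ z → ∃ C : ℝ, 0 ≤ C ∧ ∀ y : ℕ, z < y →
      |∑ p ∈ PS z y, w p ^ 2 * (1 / (p : ℝ)) - v * ∑ p ∈ PS z y, 1 / (p : ℝ)| ≤ C)
    (ε : ℝ) (hε : 0 < ε) : ∃ z X0 : ℕ, 10 ≤ z ∧ M₀ ≤ z ∧ ∀ X : ℕ, X0 ≤ X →
      ‖∑ n ∈ SQ M₀ K X, Gf w v z (Nat.sqrt X) n‖ ≤ ε * X := by
  obtain ⟨D, hD⟩ := exists_nat_gt (4 / ε + 1)
  have h4 : 0 < 4 / ε := by positivity
  have hD0 : (0 : ℝ) < D := by linarith
  have hD1 : 1 ≤ D := by exact_mod_cast hD0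
  obtain ⟨M, hM⟩ : ∃ M, M = M₀ * D.factorial ^ 2 := ⟨_, rfl⟩
  have hM24 : M₀ ≤ M := by
    rw [hM]
    exact Nat.le_mul_of_pos_right _ (pow_pos D.factorial_pos 2)
  have hM2 : 2 ∣ M := by
    rw [hM]
    exact hM₂.mul_right _
  obtain ⟨C3, hC30, hC3⟩ := hw2 (M + 10) (by omega) (by omega)
  have hcl : ∀ r : ℕ, ∃ X0 : ℕ, (r < M ∧ 1 ≤ r) → ∀ X : ℕ, X0 ≤ X →
      ‖∑ n ∈ (Icc 1 X).filter (fun n => n % M = r), Gf w v (M + 10) (Nat.sqrt X) n‖ ≤ ε / 2 * X / M := by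
    intro r
    by_cases hr : r < M ∧ 1 ≤ r
    · obtain ⟨X0, h⟩ := cls_sum w c hc hwc v C3 hv hC30 (M + 10) (by omega) hC3 M r (by omega) (by omega)
        hr.1 hr.2 (ε / 2) (by positivity)
      exact ⟨X0, fun _ => h⟩
    · exact ⟨0, fun h => absurd h hr⟩
  choose X0 hX0 using hcl
  refine ⟨M + 10, (range M).sup X0, by omega, by omega, fun X hX => ?_⟩
  have hTD : ‖∑ n ∈ TD M₀ K D X, Gf w v (M + 10) (Nat.sqrt X) n‖ ≤ ε / 2 * X := by
    have hmap : ∀ n ∈ TD M₀ K D X, n % M ∈ range M := fun n _ => mem_range.2 (Nat.mod_lt _ (by omega))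
    rw [← sum_fiberwise_of_maps_to hmap]
    refine (norm_sum_le _ _).trans ?_
    have h1 : ∀ r ∈ range M, ‖∑ n ∈ (TD M₀ K D X).filter (fun n => n % M = r),
        Gf w v (M + 10) (Nat.sqrt X) n‖ ≤ ε / 2 * X / M := by
      intro r hr
      rw [mem_range] at hr
      have hmod : ∀ n : ℕ, n % M = r → (n % M₀ ∈ K ↔ r % M₀ ∈ K) := by
        intro n hn
        rw [← hn, hM, Nat.mod_mul_right_mod]
      have hdiv : ∀ n : ℕ, n % M = r → ∀ p : ℕ, p.Prime → p ≤ D → (p ^ 2 ∣ n ↔ p ^ 2 ∣ r) := by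
        intro n hn p hp hpD
        have h2 : p ^ 2 ∣ M := by
          rw [hM]
          exact (pow_dvd_pow_of_dvd (Nat.dvd_factorial hp.pos hpD) 2).mul_left _
        rw [← hn, Nat.dvd_mod_iff h2]
      by_cases hR : r % M₀ ∈ K ∧ ∀ p : ℕ, p.Prime → p ≤ D → ¬ p ^ 2 ∣ r
      · have e : (TD M₀ K D X).filter (fun n => n % M = r) = (Icc 1 X).filter (fun n => n % M = r) := by
          unfold TD
          ext n
          simp only [mem_filter]
          constructor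
          · rintro ⟨⟨a1, a2⟩, a3⟩
            exact ⟨a1, a3⟩
          · rintro ⟨a1, a3⟩
            exact ⟨⟨a1, (hmod n a3).2 hR.1, fun p hp hpD hd =>
              hR.2 p hp hpD ((hdiv n a3 p hp hpD).1 hd)⟩, a3⟩
        rw [e]
        have hr1 : 1 ≤ r := by
          rcases Nat.eq_zero_or_pos r with h | h
          · have h1 := hK _ hR.1
            rw [h, Nat.zero_mod] at h1
            omega
          · exact h
        exact hX0 r ⟨hr, hr1⟩ X ((le_sup (mem_range.2 hr)).trans hX)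
      · have e : (TD M₀ K D X).filter (fun n => n % M = r) = ∅ := by
          rw [filter_eq_empty_iff]
          intro n hn h
          apply hR
          unfold TD at hn
          rw [mem_filter] at hn
          exact ⟨(hmod n h).1 hn.2.1, fun p hp hpD hd =>
            hn.2.2 p hp hpD ((hdiv n h p hp hpD).2 hd)⟩
        rw [e, sum_empty, norm_zero]
        positivity
    refine (sum_le_sum h1).trans (le_of_eq ?_)
    rw [sum_const, card_range, nsmul_eq_mul]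
    have : (M : ℝ) ≠ 0 := by exact_mod_cast (by omega : M ≠ 0)
    field_simp
  have hdiff : ‖∑ n ∈ TD M₀ K D X \ SQ M₀ K X, Gf w v (M + 10) (Nat.sqrt X) n‖ ≤ ε / 2 * X := by
    refine (norm_sum_le _ _).trans ?_
    refine (sum_le_sum fun n _ => Gf_le w v hv (M + 10) (Nat.sqrt X) n).trans ?_
    rw [sum_const, nsmul_eq_mul]
    have h1 := card_TD_sdiff M₀ K D X hD1
    have h2 : (X : ℝ) / D ≤ ε / 4 * X := by
      rw [div_le_iff₀ hD0]
      have h3 : 1 ≤ ε / 4 * D := by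
        have h5 : 4 / ε ≤ D := by linarith
        rw [div_le_iff₀ hε] at h5
        linarith
      have h6 : (0 : ℝ) ≤ X := Nat.cast_nonneg X
      nlinarith
    linarith
  have e : ∑ n ∈ SQ M₀ K X, Gf w v (M + 10) (Nat.sqrt X) n = ∑ n ∈ TD M₀ K D X, Gf w v (M + 10) (Nat.sqrt X) n -
      ∑ n ∈ TD M₀ K D X \ SQ M₀ K X, Gf w v (M + 10) (Nat.sqrt X) n := by
    rw [← sum_sdiff (SQ_sub_TD M₀ K D X)]
    ring
  rw [e]
  refine (norm_sub_le _ _).trans ?_
  linarith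

end Pool.Agent.N856.QL
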